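import Pool.Agent.H499.ES.Alg

/-! The degree decomposition for a generic parameter. -/

set_option autoImplicit false
set_option linter.all false

namespace Pool.Agent.H499.ES

section deg

variable {k : Type*} [Field k]

/-- `a` has degree `j` -/
def In (Λ : Subgroup kˣ) (s : kˣ) (j : ℤ) (a : k) : Prop := ∃ u ∈ Λ, a = ((s ^ j * u : kˣ) : k)

open Classical in
/-- the part of degree `j` -/
noncomputable def dg (Λ : Subgroup kˣ) (s : kˣ) (j : ℤ) (M : Multiset k) : Multiset k :=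
  sc (s ^ j)⁻¹ (M.filter (In Λ s j))

variable {Λ : Subgroup kˣ} {s : kˣ}

theorem In.unique (hs : ∀ m : ℤ, m ≠ 0 → s ^ m ∉ Λ) {j j' : ℤ} {a : k} (h : In Λ s j a) (h' : In Λ s j' a) : j = j' := by
  obtain ⟨u, hu, e⟩ := h
  obtain ⟨u', hu', e'⟩ := h'
  by_contra hne
  rw [e] at e'
  have h1 : s ^ j * u = s ^ j' * u' := Units.ext e'
  refine hs (j - j') (sub_ne_zero.2 hne) ?_
  have h2 : s ^ (j - j') = u' * u⁻¹ := by
    rw [zpow_sub, eq_mul_inv_iff_mul_eq, mul_assoc, mul_comm _ u, ← mul_assoc, h1, mul_comm, inv_mul_cancel_left]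
  rw [h2]
  exact Λ.mul_mem hu' (Λ.inv_mem hu)

theorem in_scale {e j : ℤ} {u : kˣ} (hu : u ∈ Λ) (a : k) :
    In Λ s j (((s ^ e * u : kˣ) : k) * a) ↔ In Λ s (j - e) a := by
  constructor
  · rintro ⟨v, hv, h⟩
    refine ⟨u⁻¹ * v, Λ.mul_mem (Λ.inv_mem hu) hv, ?_⟩
    have h1 : a = (((s ^ e * u)⁻¹ * (s ^ j * v) : kˣ) : k) := by
      rw [Units.val_mul, ← h, ← mul_assoc, ← Units.val_mul, inv_mul_cancel, Units.val_one, one_mul]
    rw [h1]
    congr 1
    rw [zpow_sub, mul_inv]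
    calc (s ^ e)⁻¹ * u⁻¹ * (s ^ j * v) = s ^ j * (s ^ e)⁻¹ * (u⁻¹ * v) := by
          rw [mul_mul_mul_comm, mul_comm (s ^ e)⁻¹ (s ^ j)]
      _ = _ := rfl
  · rintro ⟨v, hv, h⟩
    refine ⟨u * v, Λ.mul_mem hu hv, ?_⟩
    rw [h, ← Units.val_mul]
    congr 1
    rw [zpow_sub]
    calc s ^ e * u * (s ^ j * (s ^ e)⁻¹ * v) = s ^ j * (u * v) * (s ^ e * (s ^ e)⁻¹) := by ac_rfl
      _ = _ := by rw [mul_inv_cancel, mul_one]

theorem dg_add (j : ℤ) (M N : Multiset k) : dg Λ s j (M + N) = dg Λ s j M + dg Λ s j N := by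
  rw [dg, Multiset.filter_add, sc_add]
  rfl

theorem dg_zero (j : ℤ) : dg Λ s j (0 : Multiset k) = 0 := by
  rw [dg, Multiset.filter_zero, sc_zero]

theorem dg_sum {α : Type*} (F : Finset α) (M : α → Multiset k) (j : ℤ) :
    dg Λ s j (∑ a ∈ F, M a) = ∑ a ∈ F, dg Λ s j (M a) := by
  classical
  induction F using Finset.induction_on with
  | empty => rw [Finset.sum_empty, Finset.sum_empty, dg_zero]
  | insert a F ha ih => rw [Finset.sum_insert ha, Finset.sum_insert ha, dg_add, ih]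

theorem dg_sc (e j : ℤ) {u : kˣ} (hu : u ∈ Λ) (M : Multiset k) :
    dg Λ s j (sc (s ^ e * u) M) = sc u (dg Λ s (j - e) M) := by
  classical
  rw [dg, dg, sc_sc]
  have h1 : (sc (s ^ e * u) M).filter (In Λ s j) = sc (s ^ e * u) (M.filter (In Λ s (j - e))) := by
    rw [sc, Multiset.filter_map, sc]
    congr 1
    exact Multiset.filter_congr fun a _ => in_scale hu a
  rw [h1, sc_sc]
  congr 1
  rw [zpow_sub, mul_inv, inv_inv]
  ac_rfl

theorem dg_self (hs : ∀ m : ℤ, m ≠ 0 → s ^ m ∉ Λ) (c j : ℤ) {E : Multiset k} (hE : ∀ a ∈ E, ∃ u ∈ Λ, a = (u : k)) :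
    dg Λ s j (sc (s ^ c) E) = if j = c then E else 0 := by
  classical
  have h0 : ∀ a ∈ E, In Λ s 0 a := fun a ha => by
    obtain ⟨u, hu, e⟩ := hE a ha
    exact ⟨u, hu, by rw [e, zpow_zero, one_mul]⟩
  have h1 : sc (s ^ c) E = sc (s ^ c * 1) E := by rw [mul_one]
  rw [h1, dg_sc c j Λ.one_mem, sc_one]
  split_ifs with h
  · subst h
    rw [sub_self, dg, zpow_zero, inv_one, sc_one, Multiset.filter_eq_self.2 h0]
  · have h2 : E.filter (In Λ s (j - c)) = 0 := by
      refine Multiset.filter_eq_nil.2 fun a ha h' => ?_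
      have := In.unique hs h' (h0 a ha)
      exact h (by linarith)
    rw [dg, h2, sc_zero]

theorem sum_card_dg_le (hs : ∀ m : ℤ, m ≠ 0 → s ^ m ∉ Λ) (F : Finset ℤ) (M : Multiset k) :
    ∑ j ∈ F, Multiset.card (dg Λ s j M) ≤ Multiset.card M := by
  classical
  induction M using Multiset.induction with
  | empty =>
    have : ∀ j ∈ F, Multiset.card (dg Λ s j (0 : Multiset k)) = 0 := fun j _ => by rw [dg_zero, Multiset.card_zero]
    exact (Finset.sum_eq_zero this).le
  | cons a M ih =>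
    have h1 : ∀ j ∈ F, Multiset.card (dg Λ s j (a ::ₘ M)) = (if In Λ s j a then 1 else 0) +
        Multiset.card (dg Λ s j M) := by
      intro j _
      rw [dg, dg, card_sc, card_sc]
      split_ifs with h
      · rw [Multiset.filter_cons_of_pos _ h, Multiset.card_cons, add_comm]
      · rw [Multiset.filter_cons_of_neg _ h, zero_add]
    rw [Finset.sum_congr rfl h1, Finset.sum_add_distrib, Multiset.card_cons, add_comm]
    refine Nat.add_le_add ih ?_
    rw [← Finset.sum_filter, Finset.sum_const, smul_eq_mul, mul_one]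
    refine Finset.card_le_one.2 fun x hx y hy => ?_
    exact In.unique hs (Finset.mem_filter.1 hx).2 (Finset.mem_filter.1 hy).2

/-- the decomposition at a generic point -/
theorem split_point {N : ℕ} {n n' : ℕ} {e : Fin N → ℤ} {χ : Fin N → kˣ} {E : Fin N → ℤ → Multiset k} {J : Finset ℤ}
    (hs : ∀ m : ℤ, m ≠ 0 → s ^ m ∉ Λ) (hχ : ∀ i, χ i ∈ Λ) (hE : ∀ i j, ∀ a ∈ E i j, ∃ u ∈ Λ, a = (u : k))
    (hJ : ∀ i j, j ∉ J → E i j = 0) {A B : Multiset k} (hA : Multiset.card A = n) (hB : Multiset.card B = n')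
    (h : ∀ i, A + sc (s ^ e i * χ i) B = ∑ c ∈ J, sc (s ^ c) (E i c)) :
    ∃ P Q : ℤ → Multiset k, (∀ i j, P j + sc (χ i) (Q (j - e i)) = E i j) ∧
      (∀ F : Finset ℤ, ∑ j ∈ F, Multiset.card (P j) ≤ n) ∧ ∀ F : Finset ℤ, ∑ j ∈ F, Multiset.card (Q j) ≤ n' := by
  classical
  refine ⟨fun j => dg Λ s j A, fun j => dg Λ s j B, fun i j => ?_, fun F => hA ▸ sum_card_dg_le hs F A,
    fun F => hB ▸ sum_card_dg_le hs F B⟩
  have h1 := congrArg (dg Λ s j) (h i)
  rw [dg_add, dg_sc (e i) j (hχ i), dg_sum] at h1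
  rw [h1, Finset.sum_congr rfl fun c _ => dg_self hs c j (hE i c)]
  rw [Finset.sum_ite_eq J j]
  split_ifs with h2
  · rfl
  · exact (hJ i j h2).symm

end deg

section total

variable {G : Type*} [Group G] [TopologicalSpace G] {k : Type*} [Field k] [TopologicalSpace k]
  {N : ℕ} {χ : Fin N → G →* kˣ} {e : Fin N → ℤ} {E : Fin N → ℤ → G → Multiset k} {r : Fin N → ℤ → ℕ}
  {J : Finset ℤ} {P Q : G → ℤ → Multiset k} {I : Set G}

theorem Hyp.total (h : Hyp I χ e E r J P Q) (i0 : Fin N) :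
    ∀ g i, (∑ j ∈ J, P g j) + sc (χ i g) (∑ j ∈ J.image (fun j => j - e i0), Q g j) = ∑ j ∈ J, E i j g := by
  intro g i
  have key : ∀ i, ∑ j ∈ J, Q g (j - e i) = ∑ᶠ j, Q g j := by
    intro i
    have h1 : (Function.support fun j => Q g j) ⊆ (J.image (fun j => j - e i) : Finset ℤ) := by
      intro j hj
      rw [Finset.coe_image]
      refine ⟨j + e i, ?_, add_sub_cancel_right _ _⟩
      by_contra hcon
      exact hj (h.Q_out i g hcon)
    rw [finsum_eq_sum_of_support_subset _ h1, Finset.sum_image]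
    intro a _ b _ hab
    have h' : a - e i = b - e i := hab
    linarith
  have h2 : ∑ j ∈ J.image (fun j => j - e i0), Q g j = ∑ j ∈ J, Q g (j - e i) := by
    rw [key i, ← key i0, Finset.sum_image]
    intro a _ b _ hab
    have h' : a - e i0 = b - e i0 := hab
    linarith
  have hsum : ∀ (F : Finset ℤ) (M : ℤ → Multiset k) (c : kˣ), sc c (∑ j ∈ F, M j) = ∑ j ∈ F, sc c (M j) := by
    intro F M c
    classical
    induction F using Finset.induction_on with
    | empty => rw [Finset.sum_empty, Finset.sum_empty, sc_zero]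
    | insert a F ha ih => rw [Finset.sum_insert ha, Finset.sum_insert ha, sc_add, ih]
  rw [h2, hsum, ← Finset.sum_add_distrib]
  exact Finset.sum_congr rfl fun j _ => h.rel g i j

/-- the conclusions -/
theorem Hyp.main [IsAlgClosed k] [IsTopologicalRing k] [ContinuousInv G] (h : Hyp I χ e E r J P Q) {i i' : Fin N}
    (hi : i ≠ i') {n n' : ℕ} (hP : ∀ g, ∀ F : Finset ℤ, ∑ j ∈ F, Multiset.card (P g j) ≤ n)
    (hQ : ∀ g, ∀ F : Finset ℤ, ∑ j ∈ F, Multiset.card (Q g j) ≤ n')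
    (hcard : ∀ i, ∑ j ∈ J, r i j = n + n') :
    ∃ P' Q' : G → Multiset k, (∀ g, Multiset.card (P' g) = n) ∧ (∀ g, Multiset.card (Q' g) = n') ∧
      (∀ g i, P' g + sc (χ i g) (Q' g) = ∑ j ∈ J, E i j g) ∧ Vr I P' ∧ Vr I Q' ∧
      (n' < N → Gn I P') ∧ (n < N → Gn I Q') := by
  have ht := h.total i
  have hc : ∀ g, Multiset.card (∑ j ∈ J, P g j) + Multiset.card (∑ j ∈ J.image (fun j => j - e i), Q g j) = n + n' := by
    intro g
    have h1 := congrArg Multiset.card (ht g i)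
    rw [Multiset.card_add, card_sc, Multiset.card_sum (s := J) (f := fun j => E i j g)] at h1
    rw [h1, ← hcard i]
    exact Finset.sum_congr rfl fun j _ => h.card i j g
  have hc1 : ∀ g, Multiset.card (∑ j ∈ J, P g j) ≤ n := fun g => by
    rw [Multiset.card_sum]
    exact hP g J
  have hc2 : ∀ g, Multiset.card (∑ j ∈ J.image (fun j => j - e i), Q g j) ≤ n' := fun g => by
    rw [Multiset.card_sum]
    exact hQ g _
  refine ⟨fun g => ∑ j ∈ J, P g j, fun g => ∑ j ∈ J.image (fun j => j - e i), Q g j, fun g => ?_, fun g => ?_,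
    fun g i => ht g i, Vr.sum _ fun j _ => h.vr_P hi j, Vr.sum _ fun j _ => h.vr_Q hi j,
    fun hN => Gn.sum _ fun j _ => h.gn_P hi hN (hQ 1) j, fun hN => Gn.sum _ fun j _ => h.gn_Q hi hN (hP 1) j⟩
  · have := hc g
    have := hc1 g
    have := hc2 g
    show Multiset.card (∑ j ∈ J, P g j) = n
    omega
  · have := hc g
    have := hc1 g
    have := hc2 g
    show Multiset.card (∑ j ∈ J.image (fun j => j - e i), Q g j) = n'
    omega

end total

end Pool.Agent.H499.ES
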