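import Pool.Agent.H499.ES.Alg

/-! Points of the closure: the factorization of the characteristic polynomials. -/

set_option autoImplicit false
set_option linter.all false

namespace Pool.Agent.H499.ES

open Matrix Polynomial

section tr

variable {k : Type*} [Field k] [IsAlgClosed k]

/-- lying over for points -/
theorem lift_point {M C : Type*} [CommRing M] [Algebra k M] [CommRing C] [Algebra k C] (Φ : M →ₐ[k] C) (e : M →ₐ[k] k)
    (he : ∀ F, Φ F = 0 → e F = 0) :
    ∃ (B : Subring C) (π : B →+* k), (∀ t, Φ.toRingHom.IsIntegralElem t → t ∈ B) ∧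
      ∀ F (h : Φ F ∈ B), π ⟨Φ F, h⟩ = e F := by
  letI : Algebra M C := Φ.toRingHom.toAlgebra
  let B := integralClosure M C
  have hes : Function.Surjective e := fun c => ⟨algebraMap k _ c, e.commutes c⟩
  haveI hmax : (RingHom.ker e).IsMaximal := RingHom.ker_isMaximal_of_surjective _ hes
  haveI hint : Algebra.IsIntegral M B := inferInstance
  obtain ⟨Q, hQ, hQ'⟩ := Ideal.exists_ideal_over_maximal_of_isIntegral (S := B) (RingHom.ker e) (by
    intro c hc
    have h1 : algebraMap M B c = 0 := hc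
    have h2 : Φ c = 0 := congrArg Subtype.val h1
    exact he c h2)
  letI := Ideal.Quotient.field Q
  let q : B →+* (B ⧸ Q) := Ideal.Quotient.mk Q
  let f : k →+* (B ⧸ Q) := (q.comp (algebraMap M B)).comp (algebraMap k M)
  have hq : ∀ F : M, q (algebraMap M B F) = f (e F) := by
    intro F
    have h1 : F - algebraMap k M (e F) ∈ RingHom.ker e := by
      rw [RingHom.mem_ker, map_sub, AlgHom.commutes]
      exact sub_self _
    rw [← hQ'] at h1
    have h2 : algebraMap M B (F - algebraMap k M (e F)) ∈ Q := h1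
    have h3 : q (algebraMap M B (F - algebraMap k M (e F))) = 0 := Ideal.Quotient.eq_zero_iff_mem.2 h2
    rw [map_sub, map_sub, sub_eq_zero] at h3
    exact h3
  letI : Algebra k (B ⧸ Q) := f.toAlgebra
  haveI : Algebra.IsIntegral k (B ⧸ Q) := by
    refine ⟨fun z => ?_⟩
    obtain ⟨b, rfl⟩ := Ideal.Quotient.mk_surjective z
    obtain ⟨p, hp, hp2⟩ := hint.isIntegral b
    refine ⟨p.map (e : M →+* k), hp.map _, ?_⟩
    have h1 := congrArg q hp2
    rw [Polynomial.hom_eval₂, map_zero] at h1
    rw [Polynomial.eval₂_map]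
    have h2 : (algebraMap k (B ⧸ Q)).comp (e : M →+* k) = q.comp (algebraMap M B) := by
      ext F
      exact (hq F).symm
    rw [h2]
    exact h1
  have hbij := IsAlgClosed.algebraMap_bijective_of_isIntegral (k := k) (K := B ⧸ Q)
  let E : k ≃+* (B ⧸ Q) := RingEquiv.ofBijective (algebraMap k (B ⧸ Q)) hbij
  refine ⟨B.toSubring, (E.symm : (B ⧸ Q) →+* k).comp q, fun t ht => ht, fun F h => ?_⟩
  show E.symm (q (algebraMap M B F)) = e F
  rw [hq, RingEquiv.symm_apply_eq]
  rfl

theorem exists_fun {n : ℕ} {D : Multiset k} (h : Multiset.card D = n) : ∃ a : Fin n → k, Finset.univ.val.map a = D := by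
  obtain ⟨l, hl⟩ : ∃ l : List k, (l : Multiset k) = D := Quot.exists_rep D
  subst hl
  rw [Multiset.coe_card] at h
  subst h
  refine ⟨l.get, ?_⟩
  rw [Fin.univ_val_map, List.ofFn_get]

theorem prod_scale {R : Type*} [CommRing R] {n : ℕ} (u v : R) (b : Fin n → R) :
    ∏ l, (C u * X - C (v * (u * b l))) = C u ^ n * ∏ l, (X - C (v * b l)) := by
  have h1 : ∀ l ∈ Finset.univ, (C u * X - C (v * (u * b l)) : R[X]) = C u * (X - C (v * b l)) := by
    intro l _
    rw [mul_sub, ← C_mul]
    congr 2
    ring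
  rw [Finset.prod_congr rfl h1, Finset.prod_mul_distrib, Finset.prod_const, Finset.card_univ, Fintype.card_fin]

theorem charpoly_of_roots {ι : Type*} [Fintype ι] [DecidableEq ι] {n n' : ℕ} {R : Matrix ι ι k} {a : Fin n → k}
    {b : Fin n' → k} {v : k} (h : R.charpoly.roots = Finset.univ.val.map a + (Finset.univ.val.map b).map fun z => v * z) :
    R.charpoly = (∏ l, (X - C (a l))) * ∏ l, (X - C (v * b l)) := by
  rw [(IsAlgClosed.splits R.charpoly).eq_prod_roots_of_monic R.charpoly_monic, h, Multiset.map_add, Multiset.prod_add,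
    Multiset.map_map, Multiset.map_map, Multiset.map_map]
  rfl

/-- **Transfer** to the points of the closure. -/
theorem transfer {M : Type*} [CommRing M] [Algebra k M] {Γ : Type*} (Φ : M →ₐ[k] (Γ → k)) (x : M →ₐ[k] k)
    (hx : ∀ F, Φ F = 0 → x F = 0) {N n n' : ℕ} {ι : Type*} [Fintype ι] [DecidableEq ι] (Y : Fin N → Matrix ι ι M)
    (c : Fin N → M) (i0 : Fin N) (D D' : Γ → Multiset k) (hD : ∀ g, Multiset.card (D g) = n)
    (hD' : ∀ g, Multiset.card (D' g) = n')
    (h : ∀ g i, ((Y i).map (fun F => Φ F g)).charpoly.roots = D g + (D' g).map fun z => Φ (c i) g * z)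
    (hx0 : x (c i0) ≠ 0) :
    ∃ A B : Multiset k, Multiset.card A = n ∧ Multiset.card B = n' ∧
      ∀ i, ((Y i).map x).charpoly.roots = A + B.map fun z => x (c i) * z := by
  choose a ha using fun g => exists_fun (hD g)
  choose b hb using fun g => exists_fun (hD' g)
  have h' : ∀ g i, ((Y i).map (fun F => Φ F g)).charpoly =
      (∏ l, (X - C (a g l))) * ∏ l, (X - C (Φ (c i) g * b g l)) := fun g i => by
    refine charpoly_of_roots ?_
    rw [ha, hb]
    exact h g i
  let al : Fin n → Γ → k := fun l g => a g l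
  let cl : Fin n' → Γ → k := fun l g => Φ (c i0) g * b g l
  let ev : ∀ g : Γ, (Γ → k) →+* k := fun g => Pi.evalRingHom (fun _ => k) g
  have hev : ∀ g, (ev g).comp (Φ : M →+* (Γ → k)) = ((ev g).comp (Φ : M →+* (Γ → k))) := fun _ => rfl
  have hcp : ∀ g i, (Y i).charpoly.map ((ev g).comp (Φ : M →+* (Γ → k))) =
      (∏ l, (X - C (a g l))) * ∏ l, (X - C (Φ (c i) g * b g l)) := by
    intro g i
    rw [← Matrix.charpoly_map]
    exact h' g i
  have hintg : ∀ t : Γ → k, (∀ g, ((Y i0).charpoly.map ((ev g).comp (Φ : M →+* (Γ → k)))).eval (t g) = 0) →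
      Φ.toRingHom.IsIntegralElem t := by
    intro t ht
    refine ⟨(Y i0).charpoly, Matrix.charpoly_monic _, ?_⟩
    funext g
    have h1 := ht g
    rw [Polynomial.eval_map, ← show ev g t = t g from rfl, ← Polynomial.hom_eval₂] at h1
    exact h1
  obtain ⟨B, π, hB, hπ⟩ := lift_point Φ x hx
  have hal : ∀ l, al l ∈ B := fun l => hB _ (hintg _ fun g => by
    rw [hcp, Polynomial.eval_mul, Polynomial.eval_prod, Finset.prod_eq_zero (Finset.mem_univ l), zero_mul]
    rw [Polynomial.eval_sub, Polynomial.eval_X, Polynomial.eval_C]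
    exact sub_self _)
  have hcl : ∀ l, cl l ∈ B := fun l => hB _ (hintg _ fun g => by
    have e1 : (∏ l, (X - C (Φ (c i0) g * b g l))).eval (cl l g) = 0 := by
      rw [Polynomial.eval_prod, Finset.prod_eq_zero (Finset.mem_univ l)]
      rw [Polynomial.eval_sub, Polynomial.eval_X, Polynomial.eval_C]
      exact sub_self _
    rw [hcp, Polynomial.eval_mul, e1, mul_zero])
  have hΦ : ∀ F, Φ F ∈ B := fun F => hB _ ⟨X - C F, monic_X_sub_C F, by
    rw [Polynomial.eval₂_sub, Polynomial.eval₂_X, Polynomial.eval₂_C]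
    exact sub_self _⟩
  let ΦB : M →+* B := (Φ : M →+* (Γ → k)).codRestrict B hΦ
  have hsub : B.subtype.comp ΦB = (Φ : M →+* (Γ → k)) := by ext F; rfl
  have hπΦ : π.comp ΦB = (x : M →+* k) := by
    ext F
    exact hπ F _
  -- the relation
  have hrel : ∀ i, C (ΦB (c i0)) ^ n' * (Y i).charpoly.map ΦB = (∏ l, (X - C (⟨al l, hal l⟩ : B))) *
      ∏ l, (C (ΦB (c i0)) * X - C (ΦB (c i) * ⟨cl l, hcl l⟩)) := by
    intro i
    apply Polynomial.map_injective B.subtype Subtype.val_injective
    refine Polynomial.ext fun d => ?_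
    funext g
    have h1 : ∀ p : B[X], (p.map B.subtype).coeff d g = ((p.map B.subtype).map (ev g)).coeff d := by
      intro p
      rw [Polynomial.coeff_map (ev g) d]
      rfl
    rw [h1, h1]
    congr 1
    rw [Polynomial.map_map, Polynomial.map_map]
    simp only [Polynomial.map_mul, Polynomial.map_pow, Polynomial.map_prod, Polynomial.map_sub, Polynomial.map_X,
      Polynomial.map_C, Polynomial.map_map]
    have e1 : ((ev g).comp B.subtype).comp ΦB = (ev g).comp (Φ : M →+* (Γ → k)) := by
      rw [RingHom.comp_assoc, hsub]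
    have e2 : ∀ F, ((ev g).comp B.subtype) (ΦB F) = Φ F g := fun F => rfl
    have e3 : ∀ l, ((ev g).comp B.subtype) ⟨al l, hal l⟩ = a g l := fun l => rfl
    have e4 : ∀ l, ((ev g).comp B.subtype) ⟨cl l, hcl l⟩ = Φ (c i0) g * b g l := fun l => rfl
    rw [e1, hcp g i]
    simp only [map_mul, e2, e3, e4]
    have e5 := prod_scale (Φ (c i0) g) (Φ (c i) g) (b g)
    simp only [map_mul] at e5
    rw [e5]
    ring
  set u : k := x (c i0) with hu
  refine ⟨Finset.univ.val.map fun l => π ⟨al l, hal l⟩, Finset.univ.val.map fun l => u⁻¹ * π ⟨cl l, hcl l⟩, ?_, ?_, ?_⟩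
  · rw [Multiset.card_map]
    exact Finset.card_fin n
  · rw [Multiset.card_map]
    exact Finset.card_fin n'
  · intro i
    have h1 := congrArg (Polynomial.map π) (hrel i)
    simp only [Polynomial.map_mul, Polynomial.map_pow, Polynomial.map_prod, Polynomial.map_sub, Polynomial.map_X,
      Polynomial.map_C, Polynomial.map_map] at h1
    have e2 : ∀ F, π (ΦB F) = x F := fun F => hπ F _
    rw [hπΦ] at h1
    simp only [map_mul, e2] at h1
    have e5 := prod_scale u (x (c i)) fun l => u⁻¹ * π ⟨cl l, hcl l⟩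
    simp only [mul_inv_cancel_left₀ hx0] at e5
    simp only [map_mul] at e5
    rw [e5] at h1
    have hu0 : (C u : k[X]) ^ n' ≠ 0 := pow_ne_zero _ (C_ne_zero.2 hx0)
    have h2 : (Y i).charpoly.map (x : M →+* k) = (∏ l, (X - C (π ⟨al l, hal l⟩))) *
        ∏ l, (X - C (x (c i)) * (C u⁻¹ * C (π ⟨cl l, hcl l⟩))) := by
      apply mul_left_cancel₀ hu0
      rw [h1]
      ring
    have h3 : ((Y i).map x).charpoly = (Y i).charpoly.map (x : M →+* k) := Matrix.charpoly_map (Y i) (x : M →+* k)
    rw [h3, h2, Polynomial.roots_mul (mul_ne_zero (Finset.prod_ne_zero_iff.2 fun l _ => X_sub_C_ne_zero _)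
      (Finset.prod_ne_zero_iff.2 fun l _ => by
        rw [← C_mul, ← C_mul]
        exact X_sub_C_ne_zero _))]
    congr 1
    · have := Polynomial.roots_multiset_prod_X_sub_C (Finset.univ.val.map fun l => π ⟨al l, hal l⟩)
      rw [Multiset.map_map] at this
      exact this
    · have := Polynomial.roots_multiset_prod_X_sub_C ((Finset.univ.val.map fun l => u⁻¹ * π ⟨cl l, hcl l⟩).map
        fun z => x (c i) * z)
      rw [Multiset.map_map, Multiset.map_map] at this
      rw [← this]
      congr 2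
      funext l
      show X - C (x (c i)) * (C u⁻¹ * C (π ⟨cl l, hcl l⟩)) = X - C (x (c i) * (u⁻¹ * π ⟨cl l, hcl l⟩))
      rw [C_mul, C_mul]

end tr

end Pool.Agent.H499.ES
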