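import Pool.Agent.H499.ES.Blk
import Pool.Agent.H499.ES.Tr
import Pool.Agent.H499.ES.Deg

/-! The isolation theorem for groups. -/

set_option autoImplicit false
set_option linter.all false

namespace Pool.Agent.H499.ES

open Module Matrix

section generic

theorem countable_closure {A : Type*} [Group A] {T : Set A} (hT : T.Countable) :
    (Subgroup.closure T : Set A).Countable := by
  haveI : Countable T := hT
  haveI : Countable (FreeGroup T) := by
    unfold FreeGroup
    infer_instance
  have h1 := FreeGroup.range_lift_eq_closure (f := ((↑) : T → A))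
  rw [Subtype.range_coe] at h1
  rw [← h1]
  exact Set.countable_range _

/-- a generic parameter -/
theorem exists_generic {k : Type*} [Field k] [Uncountable kˣ] {Λ : Subgroup kˣ} (hΛ : (Λ : Set kˣ).Countable) :
    ∃ s : kˣ, ∀ m : ℤ, m ≠ 0 → s ^ m ∉ Λ := by
  classical
  have h1 : (⋃ m : {m : ℕ // 0 < m}, ⋃ a ∈ (Λ : Set kˣ), {s : kˣ | s ^ (m : ℕ) = a}).Countable := by
    refine Set.countable_iUnion fun m => hΛ.biUnion fun a _ => ?_
    refine Set.Finite.countable ?_
    haveI : NeZero (m : ℕ) := ⟨m.2.ne'⟩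
    have h2 : ({z : k | z ∈ Polynomial.nthRoots (m : ℕ) (a : k)}).Finite := by
      have : {z : k | z ∈ Polynomial.nthRoots (m : ℕ) (a : k)} = ((Polynomial.nthRoots (m : ℕ) (a : k)).toFinset : Set k) := by
        ext z
        simp
      rw [this]
      exact Finset.finite_toSet _
    refine Set.Finite.of_finite_image (f := fun s : kˣ => (s : k)) (h2.subset ?_) fun x _ y _ h => Units.ext h
    rintro _ ⟨s, hs, rfl⟩
    show (s : k) ∈ Polynomial.nthRoots (m : ℕ) (a : k)
    rw [Polynomial.mem_nthRoots m.2, ← Units.val_pow_eq_pow_val]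
    exact congrArg _ hs
  obtain ⟨s, hs⟩ : ∃ s, s ∉ (⋃ m : {m : ℕ // 0 < m}, ⋃ a ∈ (Λ : Set kˣ), {s : kˣ | s ^ (m : ℕ) = a}) := by
    by_contra hcon
    push Not at hcon
    exact Set.not_countable_univ (h1.mono fun x _ => hcon x)
  have key : ∀ m : ℕ, 0 < m → s ^ m ∉ Λ := fun m hm h =>
    hs (Set.mem_iUnion.2 ⟨⟨m, hm⟩, Set.mem_iUnion₂.2 ⟨_, h, rfl⟩⟩)
  refine ⟨s, fun m hm h => ?_⟩
  rcases lt_or_gt_of_ne hm with h4 | h4
  · refine key (-m).toNat (by omega) ?_
    have h5 : s ^ (-m).toNat = (s ^ m)⁻¹ := by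
      rw [← _root_.zpow_neg, ← zpow_natCast, Int.toNat_of_nonneg (by omega)]
    rw [h5]
    exact Λ.inv_mem h
  · refine key m.toNat (by omega) ?_
    have h5 : s ^ m.toNat = s ^ m := by
      rw [← zpow_natCast, Int.toNat_of_nonneg (by omega)]
    rw [h5]
    exact h

end generic

section scal

variable {k : Type*} [Field k] {m : ℕ} {G : Type*} [Group G]

/-- scalar matrices -/
def sm (χ : G →* kˣ) : G →* Matrix (Fin m) (Fin m) k where
  toFun g := (χ g : k) • (1 : Matrix (Fin m) (Fin m) k)
  map_one' := by rw [map_one, Units.val_one, one_smul]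
  map_mul' g h := by rw [map_mul, Units.val_mul, smul_mul_smul_comm, mul_one]

theorem sm_apply (χ : G →* kˣ) (g : G) : (sm χ : G →* Matrix (Fin m) (Fin m) k) g = (χ g : k) • 1 := rfl

theorem ss_sm (χ : G →* kˣ) : SSm (sm χ : G →* Matrix (Fin m) (Fin m) k) := by
  intro W _
  obtain ⟨W', hW'⟩ := Submodule.exists_isCompl W
  refine ⟨W', fun g w hw => ?_, hW'⟩
  rw [sm_apply, Matrix.smul_mulVec, Matrix.one_mulVec]
  exact W'.smul_mem _ hw

end scal

section main

variable {k : Type*} [Field k] [IsAlgClosed k] [CharZero k] [TopologicalSpace k] [IsTopologicalRing k] [T2Space k]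
  [Uncountable kˣ] {G : Type*} [Group G] [TopologicalSpace G] [ContinuousInv G]

theorem ev_continuous {m : ℕ} {ι : Type*} [Fintype ι] [DecidableEq ι] {V : G →* Matrix ι ι k} (hV : Continuous V)
    (F : MvPolynomial (ι × ι) k) : Continuous fun g => ev (V g) F := by
  have h1 := (MvPolynomial.continuous_eval F).comp (f := fun g => fun p : ι × ι => V g p.1 p.2)
    (continuous_pi fun p => (continuous_id.matrix_elem p.1 p.2).comp hV)
  exact h1

theorem diag_scale {ι : Type*} [Fintype ι] [DecidableEq ι] {w Y : Matrix ι ι k} {p : ι} {e : ℤ} {s : kˣ}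
    (hw : ∀ a, a ≠ p → w p a = 0) (hp : w p p = (e : k))
    (hY : ∀ c : ℤ, (tl w).eigenspace (c : k) ≤ (tl Y).eigenspace ((s ^ c : kˣ) : k)) :
    Y p p = ((s ^ e : kˣ) : k) := by
  have h1 : (Pi.single p (1 : k) : ι → k) ∈ (tl w).eigenspace (e : k) := by
    rw [Module.End.mem_eigenspace_iff, tl_apply]
    funext a
    rw [Matrix.mulVec_single_one, Matrix.col_apply, Matrix.transpose_apply, Pi.smul_apply, smul_eq_mul]
    by_cases ha : a = p
    · subst ha
      rw [Pi.single_eq_same, mul_one, hp]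
    · rw [hw a ha, Pi.single_eq_of_ne ha, mul_zero]
  have h2 := congrFun (Module.End.mem_eigenspace_iff.1 (hY e h1)) p
  rw [tl_apply, Matrix.mulVec_single_one, Matrix.col_apply, Matrix.transpose_apply, Pi.smul_apply, smul_eq_mul,
    Pi.single_eq_same, mul_one] at h2
  exact h2

/-- **The isolation theorem for groups.** -/
theorem group_main {m n n' N : ℕ} (hmdef : m = n + n') (hm : 0 < m) {i0 i1 : Fin N} (h01 : i0 ≠ i1) (I : Set G) (G0 : Set G)
    (hG0 : Dense G0) (R : Fin N → G →* Matrix (Fin m) (Fin m) k) (hRc : ∀ i, Continuous (R i))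
    (hRI : ∀ i, ∀ g ∈ I, R i g = 1) (hRss : ∀ i, SSm (R i)) (χ : Fin N → G →* kˣ)
    (hχc : ∀ i, Continuous fun g => (χ i g : k)) (hχI : ∀ i, ∀ g ∈ I, χ i g = 1)
    (hinf : ∀ i j, i ≠ j → ∃ g, ∀ a : ℕ, 0 < a → (χ i g) ^ a ≠ (χ j g) ^ a) (D D' : G → Multiset k)
    (hD : ∀ g ∈ G0, Multiset.card (D g) = n) (hD' : ∀ g ∈ G0, Multiset.card (D' g) = n')
    (h : ∀ g ∈ G0, ∀ i, (R i g).charpoly.roots = D g + sc (χ i g) (D' g)) :
    ∃ P' Q' : G → Multiset k, (∀ g, Multiset.card (P' g) = n) ∧ (∀ g, Multiset.card (Q' g) = n') ∧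
      (∀ g i, P' g + sc (χ i g) (Q' g) = (R i g).charpoly.roots) ∧ Vr I P' ∧ Vr I Q' ∧
      (n' < N → Gn I P') ∧ (n < N → Gn I Q') := by
  classical
  let RR : Fin N ⊕ Fin N → G →* Matrix (Fin m) (Fin m) k := Sum.elim R fun i => sm (χ i)
  set V : G →* Matrix (Fin m × (Fin N ⊕ Fin N)) (Fin m × (Fin N ⊕ Fin N)) k := bd RR with hV
  let a0 : Fin m := ⟨0, hm⟩
  let p : Fin N → Fin m × (Fin N ⊕ Fin N) := fun i => (a0, Sum.inr i)
  have hVc : Continuous V := by
    have h1 : ∀ κ, Continuous (RR κ) := by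
      rintro (i | i)
      · exact hRc i
      · exact (hχc i).smul continuous_const
    exact Continuous.matrix_blockDiagonal (continuous_pi h1)
  have hchar : ∀ i, IsChar V (p i) := by
    intro i g q hq
    rw [hV, bd_apply, blockDiagonal_apply, blockDiagonal_apply]
    constructor
    · split_ifs with h1
      · have h2 : q.1 ≠ a0 := fun h3 => hq (Prod.ext h3 h1)
        rw [h1]
        show ((χ i g : k) • (1 : Matrix (Fin m) (Fin m) k)) q.1 a0 = 0
        rw [Matrix.smul_apply, Matrix.one_apply_ne h2, smul_zero]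
      · rfl
    · split_ifs with h1
      · have h2 : q.1 ≠ a0 := fun h3 => hq (Prod.ext h3 h1.symm)
        show ((χ i g : k) • (1 : Matrix (Fin m) (Fin m) k)) a0 q.1 = 0
        rw [Matrix.smul_apply, Matrix.one_apply_ne h2.symm, smul_zero]
      · rfl
  have hVp : ∀ g i, V g (p i) (p i) = (χ i g : k) := by
    intro g i
    rw [hV, bd_apply, blockDiagonal_apply_eq]
    show ((χ i g : k) • (1 : Matrix (Fin m) (Fin m) k)) a0 a0 = _
    rw [Matrix.smul_apply, Matrix.one_apply_eq, smul_eq_mul, mul_one]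
  have hss : SS V (Set.range pr) := ss_bd (R := RR) (by
    rintro (i | i)
    · exact hRss i
    · exact ss_sm (χ i))
  have hPr : ∀ q ∈ Set.range (pr (k := k) (m := m) (κ := Fin N ⊕ Fin N)), ∀ g, q * V g = V g * q := by
    rintro _ ⟨i, rfl⟩ g
    exact pr_comm RR i g
  obtain ⟨w, hw, hwc, hw2, e, he, hwe⟩ := exists_grading hss hPr hchar (fun i j hij => by
    obtain ⟨g, hg⟩ := hinf i j hij
    refine ⟨g, fun a ha h' => hg a ha (Units.ext ?_)⟩
    rw [hVp, hVp] at h'
    rw [Units.val_pow_eq_pow_val, Units.val_pow_eq_pow_val, h'])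
  have hwb : w = blockDiagonal (blockDiag w) := block_of_comm fun i => lie_comm (fun g => pr_comm RR i g) hw
  have hw2' : (⨆ c : ℤ, (tl (blockDiagonal (blockDiag w))).eigenspace (c : k)) = ⊤ := by rw [← hwb]; exact hw2
  have hcomm : ∀ κ g, RR κ g * blockDiag w κ = blockDiag w κ * RR κ g := by
    intro κ g
    have h1 := hwc g
    rw [hwb, hV, bd_apply, ← blockDiagonal_mul, ← blockDiagonal_mul] at h1
    exact congrFun (blockDiagonal_injective h1) κ
  -- the pieces
  choose c U U' R' hR' hU hoff hpiece using fun i : Fin N =>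
    exists_pieces (R i) (iSup_block hw2' (Sum.inl i)) (hcomm (Sum.inl i))
  let J : Finset ℤ := Finset.univ.biUnion fun i => Finset.univ.image (c i)
  have hJ : ∀ i a, c i a ∈ J := fun i a =>
    Finset.mem_biUnion.2 ⟨i, Finset.mem_univ _, Finset.mem_image_of_mem _ (Finset.mem_univ _)⟩
  let E : Fin N → ℤ → G → Multiset k := fun i j g => ((R' i g).toSquareBlock (c i) j).charpoly.roots
  let r : Fin N → ℤ → ℕ := fun i j => Fintype.card {a // c i a = j}
  have hr : ∀ i j g, Multiset.card (E i j g) = r i j := fun i j g => card_roots_charpoly _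
  have hout : ∀ i j, j ∉ J → r i j = 0 := by
    intro i j hj
    refine Fintype.card_eq_zero_iff.2 ⟨fun a => hj ?_⟩
    rw [← a.2]
    exact hJ i a.1
  have hsc1 : ∀ M : ℤ → Multiset k, ∑ j ∈ J, sc ((1 : kˣ) ^ j) (M j) = ∑ j ∈ J, M j := fun M =>
    Finset.sum_congr rfl fun j _ => by rw [_root_.one_zpow, sc_one]
  have htot : ∀ i g, (R i g).charpoly.roots = ∑ j ∈ J, E i j g := by
    intro i g
    have h1 := hpiece i J (hJ i) 1 1 (fun c v _ => by
      rw [Module.End.mem_eigenspace_iff, tl_one, _root_.one_zpow, Units.val_one, one_smul]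
      rfl) g
    rw [one_mul] at h1
    rw [h1]
    exact hsc1 _
  have hcard : ∀ i, ∑ j ∈ J, r i j = n + n' := by
    intro i
    have h1 := congrArg Multiset.card (htot i 1)
    rw [card_roots_charpoly, Fintype.card_fin, Multiset.card_sum] at h1
    rw [← hmdef, h1]
    exact Finset.sum_congr rfl fun j _ => (hr i j 1).symm
  -- the splitting at a point
  have hsplit : ∀ g, ∃ P Q : ℤ → Multiset k, (∀ i j, P j + sc (χ i g) (Q (j - e i)) = E i j g) ∧
      (∀ F : Finset ℤ, ∑ j ∈ F, Multiset.card (P j) ≤ n) ∧ ∀ F : Finset ℤ, ∑ j ∈ F, Multiset.card (Q j) ≤ n' := by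
    intro g
    let T : Set kˣ := (Set.range fun i => χ i g) ∪ {u | ∃ i, (u : k) ∈ (R i g).charpoly.roots}
    have hT : T.Countable := by
      refine (Set.countable_range _).union ?_
      refine Set.Finite.countable ?_
      refine Set.Finite.of_finite_image (f := fun u : kˣ => (u : k)) (Set.Finite.subset
        (Set.finite_iUnion fun i => ((R i g).charpoly.roots.toFinset.finite_toSet : Set.Finite _)) ?_)
        fun x _ y _ h' => Units.ext h'
      rintro _ ⟨u, ⟨i, hi⟩, rfl⟩
      exact Set.mem_iUnion.2 ⟨i, by simpa using hi⟩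
    obtain ⟨s, hs⟩ := exists_generic (countable_closure hT)
    obtain ⟨Y, hY, hYc⟩ := exists_scale (w := w) s
    have hYb : Y = blockDiagonal (blockDiag Y) := block_of_comm fun i =>
      hYc _ (lie_comm (fun g => pr_comm RR i g) hw)
    have hYi : ∀ κ, ∀ c : ℤ, (tl (blockDiag w κ)).eigenspace (c : k) ≤
        (tl (blockDiag Y κ)).eigenspace ((s ^ c : kˣ) : k) := by
      intro κ c
      refine scale_block (M := blockDiag w) (N := blockDiag Y) ?_ κ
      rw [← hwb, ← hYb]
      exact hY c
    have hYV : Y * V g = blockDiagonal fun κ => blockDiag Y κ * RR κ g := by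
      conv_lhs => rw [hYb]
      rw [hV, bd_apply, ← blockDiagonal_mul]
    have hYp : ∀ i, Y (p i) (p i) = ((s ^ e i : kˣ) : k) := fun i =>
      diag_scale (fun a ha => (lie_char (hchar i) hw a ha).2) (hwe i) hY
    let Φ : MvPolynomial ((Fin m × (Fin N ⊕ Fin N)) × (Fin m × (Fin N ⊕ Fin N))) k →ₐ[k] (G0 → k) :=
      Pi.algHom k (fun _ => k) fun g => ev (V g)
    have hΦ : ∀ F, Φ F = 0 → ev (Y * V g) F = 0 := by
      intro F hF
      refine scale_point hw hw2 s hY g (F := F) ?_
      rw [mem_van]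
      have h1 : IsClosed {g | ev (V g) F = 0} := isClosed_singleton.preimage (ev_continuous (m := m) hVc F)
      have h2 : G0 ⊆ {g | ev (V g) F = 0} := fun g hg => congrFun hF ⟨g, hg⟩
      intro g
      have h3 := closure_minimal h2 h1
      rw [hG0.closure_eq] at h3
      exact h3 (Set.mem_univ g)
    have hxc : ∀ i, ev (Y * V g) (MvPolynomial.X (p i, p i)) = ((s ^ e i * χ i g : kˣ) : k) := by
      intro i
      rw [ev, MvPolynomial.aeval_X]
      show (Y * V g) (p i) (p i) = _
      rw [Matrix.mul_apply, Finset.sum_eq_single (p i), hYp, hVp, Units.val_mul]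
      · intro q _ hq
        rw [(hchar i g q hq).1, mul_zero]
      · intro h'
        exact absurd (Finset.mem_univ _) h'
    obtain ⟨A, B, hA, hB, hAB⟩ := transfer Φ (ev (Y * V g)) hΦ
      (fun i => Matrix.of fun a b : Fin m => MvPolynomial.X ((a, (Sum.inl i : Fin N ⊕ Fin N)), (b, (Sum.inl i : Fin N ⊕ Fin N))))
      (fun i => MvPolynomial.X (p i, p i)) i0 (fun g : G0 => D g) (fun g : G0 => D' g) (fun g => hD g g.2)
      (fun g => hD' g g.2) (fun g i => by
        have h1 : (Matrix.of fun a b : Fin m => (MvPolynomial.X ((a, (Sum.inl i : Fin N ⊕ Fin N)), (b, (Sum.inl i : Fin N ⊕ Fin N))) :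
            MvPolynomial ((Fin m × (Fin N ⊕ Fin N)) × (Fin m × (Fin N ⊕ Fin N))) k)).map (fun F => Φ F g) = R i g := by
          ext a b
          rw [Matrix.map_apply, Matrix.of_apply]
          show ev (V g) (MvPolynomial.X _) = _
          rw [ev, MvPolynomial.aeval_X]
          show V g (a, Sum.inl i) (b, Sum.inl i) = _
          rw [hV, bd_apply, blockDiagonal_apply_eq]
          rfl
        have h2 : ∀ i, Φ (MvPolynomial.X (p i, p i)) g = (χ i g : k) := by
          intro i
          show ev (V g) (MvPolynomial.X _) = _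
          rw [ev, MvPolynomial.aeval_X]
          exact hVp g i
        rw [h1, h2]
        exact h g g.2 i) (by rw [hxc]; exact Units.ne_zero _)
    have hAB' : ∀ i, A + sc (s ^ e i * χ i g) B = ∑ j ∈ J, sc (s ^ j) (E i j g) := by
      intro i
      have h1 : (Matrix.of fun a b : Fin m => (MvPolynomial.X ((a, (Sum.inl i : Fin N ⊕ Fin N)), (b, (Sum.inl i : Fin N ⊕ Fin N))) :
          MvPolynomial ((Fin m × (Fin N ⊕ Fin N)) × (Fin m × (Fin N ⊕ Fin N))) k)).map (ev (Y * V g)) =
          blockDiag Y (Sum.inl i) * R i g := by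
        ext a b
        rw [Matrix.map_apply, Matrix.of_apply, ev, MvPolynomial.aeval_X]
        show (Y * V g) (a, Sum.inl i) (b, Sum.inl i) = _
        rw [hYV, blockDiagonal_apply_eq]
        rfl
      have h2 := hAB i
      rw [h1, hxc] at h2
      have h3 := hpiece i J (hJ i) s (blockDiag Y (Sum.inl i)) (hYi _) g
      rw [h3] at h2
      exact h2.symm
    refine split_point hs (fun i => Subgroup.subset_closure (Or.inl ⟨i, rfl⟩)) (fun i j a ha => ?_)
      (fun i j hj => Multiset.card_eq_zero.1 ((hr i j g).trans (hout i j hj))) hA hB hAB'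
    have hj : j ∈ J := by
      by_contra hcon
      rw [Multiset.card_eq_zero.1 ((hr i j g).trans (hout i j hcon))] at ha
      exact Multiset.notMem_zero _ ha
    have h4 : a ∈ (R i g).charpoly.roots := by
      rw [htot i g]
      exact Multiset.mem_sum.2 ⟨j, hj, ha⟩
    have h5 : a ≠ 0 := by
      rintro rfl
      let u : (Matrix (Fin m) (Fin m) k)ˣ := Units.map (R i) (toUnits g)
      exact zero_notMem_roots u h4
    exact ⟨Units.mk0 a h5, Subgroup.subset_closure (Or.inr ⟨i, h4⟩), rfl⟩
  choose P Q hPQ hPn hQn using hsplit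
  have hyp : Hyp I χ e E r J P Q :=
    { inj := he
      card := hr
      out := hout
      rel := hPQ
      cont := hχc
      triv := hχI
      gn := fun i j => by
        refine Gn.block (R' i) ?_ (fun g hg => ?_) (c i) (hoff i) j
        · have h1 : (fun g => R' i g) = fun g => U i * R i g * U' i := funext (hR' i)
          show Continuous fun g => R' i g
          rw [h1]
          exact (continuous_const.matrix_mul (hRc i)).matrix_mul continuous_const
        · rw [hR', hRI i g hg, mul_one, hU] }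
  obtain ⟨P', Q', h1, h2, h3, h4, h5, h6, h7⟩ := hyp.main h01 hPn hQn hcard
  exact ⟨P', Q', h1, h2, fun g i => by rw [h3, htot], h4, h5, h6, h7⟩

end main

end Pool.Agent.H499.ES
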