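import Pool.Agent.H499.CM.Final
import Pool.Agent.H499.ES.Grp

/-! Isolation for Galois representations. -/

set_option autoImplicit false
set_option linter.all false

namespace Pool.Agent.H499.ES

open MeasureTheory Matrix NumberField IsDedekindDomain
open Pool.Agent.W401.Cheb (GK IsFrob IsInert)
open Pool.Agent.H499.CM (UpperDensityLE few_of_density measure_compl_le Few IsSemisimpleRep)

section unique

variable {k : Type*} [Field k]

theorem exists_order {u : kˣ} {y : k} (hy : y ≠ 0) {M : Multiset k} {t : ℕ} (hM : Multiset.card M ≤ t)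
    (h : ∀ i : ℕ, ((u ^ i : kˣ) : k) * y ∈ M) : ∃ m : ℕ, 0 < m ∧ m ≤ t ∧ u ^ m = 1 := by
  classical
  obtain ⟨a, ha, b, hb, hab, he⟩ := Finset.exists_ne_map_eq_of_card_lt_of_maps_to (s := Finset.range (t + 1))
    (t := M.toFinset) (f := fun i => ((u ^ i : kˣ) : k) * y) (by
      rw [Finset.card_range]
      exact Nat.lt_succ_of_le ((Multiset.toFinset_card_le M).trans hM)) fun i _ => Multiset.mem_toFinset.2 (h i)
  have he' : ((u ^ a : kˣ) : k) * y = ((u ^ b : kˣ) : k) * y := he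
  have h1 : u ^ a = u ^ b := Units.ext (mul_right_cancel₀ hy he')
  rw [Finset.mem_range] at ha hb
  rcases lt_or_gt_of_ne hab with h2 | h2
  · refine ⟨b - a, by omega, by omega, ?_⟩
    have h3 : u ^ a * u ^ (b - a) = u ^ a * 1 := by rw [← pow_add, mul_one, h1]; congr 1; omega
    exact mul_left_cancel h3
  · refine ⟨a - b, by omega, by omega, ?_⟩
    have h3 : u ^ b * u ^ (a - b) = u ^ b * 1 := by rw [← pow_add, mul_one, ← h1]; congr 1; omega
    exact mul_left_cancel h3

theorem count_sc [DecidableEq k] (c : kˣ) (M : Multiset k) (b : k) : (sc c M).count ((c : k) * b) = M.count b := by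
  refine Multiset.count_map_eq_count' (fun a => (c : k) * a) M (fun x y h => ?_) b
  exact mul_left_cancel₀ c.ne_zero h

/-- one half of the uniqueness -/
theorem unique_aux {D P D' Q : Multiset k} {c d : kˣ} {n n' : ℕ} (hD : Multiset.card D ≤ n)
    (hQ : Multiset.card Q ≤ n') (hQ0 : (0 : k) ∉ Q) (h1 : D + sc c D' = P + sc c Q) (h2 : D + sc d D' = P + sc d Q)
    (h : ∀ m : ℕ, 0 < m → m ≤ min n n' → c ^ m ≠ d ^ m) : Q ≤ D' := by
  classical
  rw [Multiset.le_iff_count]
  by_contra hcon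
  push Not at hcon
  obtain ⟨y, hy⟩ := hcon
  have e1 : ∀ b, D.count ((c : k) * b) + D'.count b = P.count ((c : k) * b) + Q.count b := fun b => by
    have := congrArg (Multiset.count ((c : k) * b)) h1
    rwa [Multiset.count_add, Multiset.count_add, count_sc, count_sc] at this
  have e2 : ∀ b, D.count ((d : k) * b) + D'.count b = P.count ((d : k) * b) + Q.count b := fun b => by
    have := congrArg (Multiset.count ((d : k) * b)) h2
    rwa [Multiset.count_add, Multiset.count_add, count_sc, count_sc] at this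
  let u : kˣ := d⁻¹ * c
  have hstep : ∀ b, D'.count b < Q.count b → D'.count ((u : k) * b) < Q.count ((u : k) * b) := by
    intro b hb
    have e3 := e1 b
    have e4 := e2 ((u : k) * b)
    have e5 : (d : k) * ((u : k) * b) = (c : k) * b := by
      rw [← mul_assoc, ← Units.val_mul, mul_inv_cancel_left]
    rw [e5] at e4
    omega
  have hall : ∀ i : ℕ, D'.count (((u ^ i : kˣ) : k) * y) < Q.count (((u ^ i : kˣ) : k) * y) := by
    intro i
    induction i with
    | zero => rw [pow_zero, Units.val_one, one_mul]; exact hy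
    | succ i ih =>
      have := hstep _ ih
      rwa [← mul_assoc, ← Units.val_mul, ← pow_succ'] at this
  have hy0 : y ≠ 0 := by
    rintro rfl
    exact hQ0 (Multiset.count_pos.1 (by omega))
  have hu : ∀ m : ℕ, 0 < m → m ≤ min n n' → u ^ m ≠ 1 := by
    intro m hm hm' h'
    refine h m hm hm' ?_
    rw [mul_pow, inv_pow, inv_mul_eq_one] at h'
    exact h'.symm
  obtain ⟨m1, hm1, hm1', hu1⟩ := exists_order (u := u) hy0 hQ fun i => Multiset.count_pos.1 (by
    have := hall i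
    omega)
  obtain ⟨m2, hm2, hm2', hu2⟩ := exists_order (u := u) (y := (c : k) * y) (mul_ne_zero c.ne_zero hy0) hD fun i => by
    refine Multiset.count_pos.1 ?_
    have h3 := e1 (((u ^ i : kˣ) : k) * y)
    have h4 := hall i
    have h5 : (c : k) * (((u ^ i : kˣ) : k) * y) = ((u ^ i : kˣ) : k) * ((c : k) * y) := by ring
    rw [h5] at h3
    omega
  -- the order of `u` is at most both bounds
  have h6 : 0 < orderOf u := orderOf_pos_iff.2 (isOfFinOrder_iff_pow_eq_one.2 ⟨m1, hm1, hu1⟩)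
  refine hu (orderOf u) h6 (le_min ?_ ?_) (pow_orderOf_eq_one u)
  · exact (Nat.le_of_dvd hm2 (orderOf_dvd_of_pow_eq_one hu2)).trans hm2'
  · exact (Nat.le_of_dvd hm1 (orderOf_dvd_of_pow_eq_one hu1)).trans hm1'

theorem unique_split {D P D' Q : Multiset k} {c d : kˣ} {n n' : ℕ} (hD : Multiset.card D = n)
    (hP : Multiset.card P = n) (hD' : Multiset.card D' = n') (hQ : Multiset.card Q = n') (h0 : (0 : k) ∉ D + sc c D')
    (h1 : D + sc c D' = P + sc c Q) (h2 : D + sc d D' = P + sc d Q)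
    (h : ∀ m : ℕ, 0 < m → m ≤ min n n' → c ^ m ≠ d ^ m) : D = P ∧ D' = Q := by
  have hz : ∀ M : Multiset k, (0 : k) ∈ M → (0 : k) ∈ sc c M := fun M hM =>
    Multiset.mem_map.2 ⟨0, hM, mul_zero _⟩
  have h3 : Q ≤ D' := unique_aux hD.le hQ.le (fun h' => h0 (by
    rw [h1]
    exact Multiset.mem_add.2 (Or.inr (hz _ h')))) h1 h2 h
  have h4 : Q = D' := Multiset.eq_of_le_of_card_le h3 (by rw [hD', hQ])
  subst h4
  exact ⟨add_right_cancel h1, rfl⟩

end unique

section gal

variable {K : Type} [Field K] [NumberField K] {ℓ : ℕ} [Fact ℓ.Prime]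

/-- inverses of Frobenius elements outside a set of density zero are dense -/
theorem dense_frob {S : Set (HeightOneSpectrum (𝓞 K))} (hS : UpperDensityLE (fun v => v ∈ S) 0) :
    Dense {g : GK K | ∃ v ∉ S, ∃ σ, IsFrob v σ ∧ g = σ⁻¹} := by
  letI : MeasurableSpace (GK K) := borel _
  haveI : BorelSpace (GK K) := ⟨rfl⟩
  set μ : Measure (GK K) := Measure.haarMeasure (⊤ : TopologicalSpace.PositiveCompacts (GK K)) with hμ
  haveI : IsProbabilityMeasure μ := ⟨by
    have := Measure.haarMeasure_self (K₀ := (⊤ : TopologicalSpace.PositiveCompacts (GK K)))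
    rw [hμ]
    rwa [TopologicalSpace.PositiveCompacts.coe_top] at this⟩
  set T : Set (GK K) := {g : GK K | ∃ v ∉ S, ∃ σ, IsFrob v σ ∧ g = σ⁻¹} with hT
  have h1 : ∀ ε : ℝ, 0 < ε → μ (closure T)ᶜ ≤ ENNReal.ofReal ε := fun ε hε =>
    measure_compl_le μ (few_of_density hS hε) (closure T) isClosed_closure fun v hv σ hσ =>
      subset_closure ⟨v, hv, σ, hσ, rfl⟩
  have h2 : μ (closure T)ᶜ = 0 := by
    refine le_antisymm (ENNReal.le_of_forall_pos_le_add fun ε hε _ => ?_) bot_le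
    rw [zero_add]
    refine (h1 ε (by exact_mod_cast hε)).trans ?_
    rw [ENNReal.ofReal_coe_nnreal]
  have h3 : (closure T)ᶜ = ∅ := by
    by_contra hne
    exact (isClosed_closure.isOpen_compl.measure_pos μ (Set.nonempty_iff_ne_empty.2 hne)).ne' h2
  rw [Set.compl_empty_iff] at h3
  exact dense_iff_closure_eq.2 h3

theorem exists_not_mem {S : Set (HeightOneSpectrum (𝓞 K))} (hS : UpperDensityLE (fun v => v ∈ S) 0) :
    ∃ v : HeightOneSpectrum (𝓞 K), v ∉ S := by
  obtain ⟨g, hg⟩ := (dense_frob hS).nonempty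
  obtain ⟨v, hv, -⟩ := hg
  exact ⟨v, hv⟩

/-- inertia outside `S` -/
def Ine (S : Set (HeightOneSpectrum (𝓞 K))) : Set (GK K) := {σ | ∃ v ∉ S, IsInert v σ}

/-- from families of multisets to representations -/
theorem Gn.exists_rep {S : Set (HeightOneSpectrum (𝓞 K))} {M : GK K → Multiset (PadicAlgCl ℓ)} {n : ℕ}
    (h : Gn (Ine S) M) (hn : ∀ g, Multiset.card (M g) = n) :
    ∃ ρ : GK K →* GL (Fin n) (PadicAlgCl ℓ), Continuous ρ ∧ IsSemisimpleRep ρ ∧
      (∀ v ∉ S, ∀ σ, IsInert v σ → ρ σ = 1) ∧ ∀ g, (ρ g : Matrix (Fin n) (Fin n) (PadicAlgCl ℓ)).charpoly.roots = M g := by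
  obtain ⟨ι, h1, h2, ρ0, h3, h4, h5⟩ := h
  have hcard : Fintype.card ι = n := by rw [← hn 1, ← h5, card_roots_charpoly]
  let e : ι ≃ Fin n := Fintype.equivFinOfCardEq hcard
  let ρ1 : GK K →* Matrix (Fin n) (Fin n) (PadicAlgCl ℓ) :=
    { toFun := fun g => Matrix.reindex e e (ρ0 g)
      map_one' := by rw [map_one, Matrix.reindex_apply, Matrix.submatrix_one_equiv]
      map_mul' := fun g h => by
        rw [map_mul, Matrix.reindex_apply, Matrix.reindex_apply, Matrix.reindex_apply, Matrix.submatrix_mul_equiv] }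
  have hρ1 : ∀ g, ρ1 g = Matrix.reindex e e (ρ0 g) := fun g => rfl
  have hc : Continuous fun g => ρ1 g := h3.matrix_reindex e e
  haveI : Infinite (PadicAlgCl ℓ) := CharZero.infinite _
  obtain ⟨ρ, k1, k2, k3, k4⟩ := Pool.Agent.TH119.FT.exists_ss_mat (k := PadicAlgCl ℓ) (G := GK K) (n := n)
    ρ1.toHomUnits hc
  refine ⟨ρ, ?_, k2, fun v hv σ hσ => k4 σ (Units.ext ?_), fun g => ?_⟩
  · rw [Units.continuous_iff]
    refine ⟨k1, ?_⟩
    have e1 : ((fun u : GL (Fin n) (PadicAlgCl ℓ) => ((u⁻¹ : GL (Fin n) (PadicAlgCl ℓ)) :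
      Matrix (Fin n) (Fin n) (PadicAlgCl ℓ))) ∘ ρ) = fun x => (ρ x⁻¹ : Matrix (Fin n) (Fin n) (PadicAlgCl ℓ)) := by
      funext x
      show (((ρ x)⁻¹ : GL (Fin n) (PadicAlgCl ℓ)) : Matrix (Fin n) (Fin n) (PadicAlgCl ℓ)) = _
      rw [map_inv]
    show Continuous ((fun u : GL (Fin n) (PadicAlgCl ℓ) => ((u⁻¹ : GL (Fin n) (PadicAlgCl ℓ)) :
      Matrix (Fin n) (Fin n) (PadicAlgCl ℓ))) ∘ ρ)
    rw [e1]
    exact k1.comp continuous_inv
  · show ρ1 σ = 1
    rw [hρ1, h4 σ ⟨v, hv, hσ⟩, Matrix.reindex_apply, Matrix.submatrix_one_equiv]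
  · rw [k3, ← h5]
    show (ρ1 g).charpoly.roots = _
    rw [hρ1, Matrix.charpoly_reindex]

end gal

end Pool.Agent.H499.ES
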