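import Pool.Agent.H499.ES.Gn

/-! From graded splittings to representations. -/

set_option autoImplicit false
set_option linter.all false

namespace Pool.Agent.H499.ES

section sc

variable {k : Type*} [Field k]

/-- multiplication by `c` -/
def sc (c : kˣ) (M : Multiset k) : Multiset k := M.map fun a => (c : k) * a

theorem sc_add (c : kˣ) (M N : Multiset k) : sc c (M + N) = sc c M + sc c N := Multiset.map_add _ _ _

theorem sc_zero (c : kˣ) : sc c (0 : Multiset k) = 0 := Multiset.map_zero _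

theorem card_sc (c : kˣ) (M : Multiset k) : Multiset.card (sc c M) = Multiset.card M := Multiset.card_map _ _

theorem sc_sc (c d : kˣ) (M : Multiset k) : sc c (sc d M) = sc (c * d) M := by
  rw [sc, sc, sc, Multiset.map_map]
  refine Multiset.map_congr rfl fun a _ => ?_
  show (c : k) * ((d : k) * a) = ((c * d : kˣ) : k) * a
  rw [Units.val_mul, mul_assoc]

theorem sc_one (M : Multiset k) : sc (1 : kˣ) M = M := by
  rw [sc]
  conv_rhs => rw [← Multiset.map_id M]
  refine Multiset.map_congr rfl fun a _ => ?_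
  rw [Units.val_one, one_mul]
  rfl

theorem sc_inv_eq {c : kˣ} {M N : Multiset k} (h : sc c M = N) : M = sc c⁻¹ N := by
  rw [← h, sc_sc, inv_mul_cancel, sc_one]

theorem eq_zero_of_card_add {M N E : Multiset k} (h : M + N = E) (hE : Multiset.card E = 0) : M = 0 ∧ N = 0 := by
  rw [Multiset.card_eq_zero] at hE
  rw [hE] at h
  have h1 := congrArg Multiset.card h
  rw [Multiset.card_add, Multiset.card_zero] at h1
  exact ⟨Multiset.card_eq_zero.1 (by omega), Multiset.card_eq_zero.1 (by omega)⟩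

end sc

section alg

variable {G : Type*} [Group G] [TopologicalSpace G] {k : Type*} [Field k] [TopologicalSpace k]

/-- `M` belongs to a virtual representation -/
def Vr (I : Set G) (M : G → Multiset k) : Prop := ∃ B, Gn I B ∧ Gn I (fun g => M g + B g)

variable {N : ℕ} {χ : Fin N → G →* kˣ} {e : Fin N → ℤ} {E : Fin N → ℤ → G → Multiset k} {r : Fin N → ℤ → ℕ}
  {J : Finset ℤ} {P Q : G → ℤ → Multiset k} {I : Set G}

/-- the hypotheses -/
structure Hyp (I : Set G) (χ : Fin N → G →* kˣ) (e : Fin N → ℤ) (E : Fin N → ℤ → G → Multiset k)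
    (r : Fin N → ℤ → ℕ) (J : Finset ℤ) (P Q : G → ℤ → Multiset k) : Prop where
  inj : Function.Injective e
  card : ∀ i j g, Multiset.card (E i j g) = r i j
  out : ∀ i j, j ∉ J → r i j = 0
  rel : ∀ g i j, P g j + sc (χ i g) (Q g (j - e i)) = E i j g
  cont : ∀ i, Continuous fun g => (χ i g : k)
  triv : ∀ i, ∀ g ∈ I, χ i g = 1
  gn : ∀ i j, Gn I (E i j)

theorem Hyp.P_out (h : Hyp I χ e E r J P Q) (i : Fin N) (g : G) {j : ℤ} (hj : j ∉ J) : P g j = 0 :=
  (eq_zero_of_card_add (h.rel g i j) (by rw [h.card, h.out i j hj])).1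

theorem Hyp.Q_out (h : Hyp I χ e E r J P Q) (i : Fin N) (g : G) {j : ℤ} (hj : j + e i ∉ J) : Q g j = 0 := by
  have h1 := (eq_zero_of_card_add (h.rel g i (j + e i)) (by rw [h.card, h.out i _ hj])).2
  rw [add_sub_cancel_right] at h1
  have h2 := congrArg Multiset.card h1
  rw [card_sc, Multiset.card_zero] at h2
  exact Multiset.card_eq_zero.1 h2

theorem Hyp.card_rel (h : Hyp I χ e E r J P Q) (g : G) (i : Fin N) (j : ℤ) :
    Multiset.card (P g j) + Multiset.card (Q g (j - e i)) = r i j := by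
  have h1 := congrArg Multiset.card (h.rel g i j)
  rwa [Multiset.card_add, card_sc, h.card] at h1

/-- the sizes do not depend on the group element -/
theorem Hyp.card_Q (h : Hyp I χ e E r J P Q) {i i' : Fin N} (hi : i ≠ i') (g g' : G) (j : ℤ) :
    Multiset.card (Q g j) = Multiset.card (Q g' j) := by
  set d : ℤ := e i - e i' with hd
  have hd0 : d ≠ 0 := sub_ne_zero.2 fun h' => hi (h.inj h')
  let δ : ℤ → ℤ := fun j => (Multiset.card (Q g j) : ℤ) - Multiset.card (Q g' j)
  have h1 : ∀ j, δ j = δ (j + d) := by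
    intro j
    have e1 := h.card_rel g i (j + e i)
    have e2 := h.card_rel g' i (j + e i)
    have e3 := h.card_rel g i' (j + e i)
    have e4 := h.card_rel g' i' (j + e i)
    rw [add_sub_cancel_right] at e1 e2
    have e5 : j + e i - e i' = j + d := by rw [hd]; ring
    rw [e5] at e3 e4
    show (Multiset.card (Q g j) : ℤ) - Multiset.card (Q g' j) = (Multiset.card (Q g (j + d)) : ℤ) -
      Multiset.card (Q g' (j + d))
    omega
  have h2 : ∀ t : ℕ, δ j = δ (j + t * d) := by
    intro t
    induction t with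
    | zero => rw [Nat.cast_zero, zero_mul, add_zero]
    | succ t ih => rw [ih, h1, Nat.cast_succ]; congr 1; ring
  have h3 : Function.Injective fun t : ℕ => j + (t : ℤ) * d + e i := by
    intro t t' htt
    have : (t : ℤ) * d = t' * d := by
      have h' : j + (t : ℤ) * d + e i = j + (t' : ℤ) * d + e i := htt
      linarith
    exact_mod_cast mul_right_cancel₀ hd0 this
  obtain ⟨_, ⟨t, rfl⟩, ht⟩ := (Set.infinite_range_of_injective h3).exists_notMem_finset J
  have h4 := h2 t
  have h5 : δ (j + t * d) = 0 := by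
    show (Multiset.card (Q g (j + t * d)) : ℤ) - Multiset.card (Q g' (j + t * d)) = 0
    rw [h.Q_out i g ht, h.Q_out i g' ht, sub_self]
  rw [h5] at h4
  have h6 : (Multiset.card (Q g j) : ℤ) - Multiset.card (Q g' j) = 0 := h4
  omega

theorem Hyp.card_P (h : Hyp I χ e E r J P Q) {i i' : Fin N} (hi : i ≠ i') (g g' : G) (j : ℤ) :
    Multiset.card (P g j) = Multiset.card (P g' j) := by
  have h1 := h.card_rel g i j
  have h2 := h.card_rel g' i j
  have h3 := h.card_Q hi g g' (j - e i)
  omega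

theorem Hyp.gn_P (h : Hyp I χ e E r J P Q) {i i' : Fin N} (hi : i ≠ i') {n' : ℕ} (hn' : n' < N)
    (hQ : ∀ F : Finset ℤ, ∑ j ∈ F, Multiset.card (Q 1 j) ≤ n') (j : ℤ) : Gn I (fun g => P g j) := by
  have h1 : ∃ a : Fin N, Multiset.card (Q 1 (j - e a)) = 0 := by
    by_contra hcon
    push Not at hcon
    have h2 : ∑ b ∈ Finset.univ.image (fun a => j - e a), Multiset.card (Q 1 b) =
        ∑ a : Fin N, Multiset.card (Q 1 (j - e a)) := by
      rw [Finset.sum_image]
      intro a _ b _ hab
      exact h.inj (by have h' : j - e a = j - e b := hab; linarith)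
    have h3 : N ≤ ∑ a : Fin N, Multiset.card (Q 1 (j - e a)) := by
      calc N = ∑ a : Fin N, 1 := by simp
        _ ≤ _ := Finset.sum_le_sum fun a _ => Nat.one_le_iff_ne_zero.2 (hcon a)
    have h4 := hQ (Finset.univ.image (fun a => j - e a))
    omega
  obtain ⟨a, ha⟩ := h1
  refine (h.gn a j).congr fun g => ?_
  rw [← h.rel g a j, Multiset.card_eq_zero.1 ((h.card_Q hi g 1 _).trans ha), sc_zero, add_zero]

theorem Hyp.gn_inv [IsAlgClosed k] [IsTopologicalRing k] [ContinuousInv G] (h : Hyp I χ e E r J P Q) (i : Fin N)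
    {M : G → Multiset k} (hM : Gn I M) : Gn I (fun g => sc (χ i g)⁻¹ (M g)) := by
  have h1 := hM.twist ((χ i).comp (MonoidHom.id G))⁻¹ (by
    have e1 : (fun g => ((((χ i).comp (MonoidHom.id G))⁻¹ : G →* kˣ) g : k)) = fun g => (χ i g⁻¹ : k) := by
      funext g
      rw [map_inv]
      rfl
    rw [e1]
    exact (h.cont i).comp continuous_inv) (fun g hg => by
      show (χ i g)⁻¹ = 1
      rw [h.triv i g hg, inv_one])
  exact h1

theorem Hyp.gn_tw [IsAlgClosed k] [IsTopologicalRing k] (h : Hyp I χ e E r J P Q) (i : Fin N)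
    {M : G → Multiset k} (hM : Gn I M) : Gn I (fun g => sc (χ i g) (M g)) :=
  hM.twist (χ i) (h.cont i) (h.triv i)

theorem Hyp.gn_Q [IsAlgClosed k] [IsTopologicalRing k] [ContinuousInv G] (h : Hyp I χ e E r J P Q) {i i' : Fin N}
    (hi : i ≠ i') {n : ℕ} (hn : n < N) (hP : ∀ F : Finset ℤ, ∑ j ∈ F, Multiset.card (P 1 j) ≤ n) (j : ℤ) :
    Gn I (fun g => Q g j) := by
  have h1 : ∃ a : Fin N, Multiset.card (P 1 (j + e a)) = 0 := by
    by_contra hcon
    push Not at hcon
    have h2 : ∑ b ∈ Finset.univ.image (fun a => j + e a), Multiset.card (P 1 b) =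
        ∑ a : Fin N, Multiset.card (P 1 (j + e a)) := by
      rw [Finset.sum_image]
      intro a _ b _ hab
      exact h.inj (by have h' : j + e a = j + e b := hab; linarith)
    have h3 : N ≤ ∑ a : Fin N, Multiset.card (P 1 (j + e a)) := by
      calc N = ∑ a : Fin N, 1 := by simp
        _ ≤ _ := Finset.sum_le_sum fun a _ => Nat.one_le_iff_ne_zero.2 (hcon a)
    have h4 := hP (Finset.univ.image (fun a => j + e a))
    omega
  obtain ⟨a, ha⟩ := h1
  refine (h.gn_inv a (h.gn a (j + e a))).congr fun g => ?_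
  rw [← h.rel g a (j + e a), Multiset.card_eq_zero.1 ((h.card_P hi g 1 _).trans ha), zero_add,
    add_sub_cancel_right, sc_sc, inv_mul_cancel, sc_one]

theorem Vr.of_gn {I : Set G} {M : G → Multiset k} (h : Gn I M) : Vr I M :=
  ⟨fun _ => 0, Gn.zero I, h.congr fun g => (add_zero _).symm⟩

theorem Vr.congr {I : Set G} {M M' : G → Multiset k} (h : Vr I M) (e : ∀ g, M g = M' g) : Vr I M' := by
  have : M = M' := funext e
  rwa [← this]

theorem Vr.add {I : Set G} {M M' : G → Multiset k} (h : Vr I M) (h' : Vr I M') : Vr I (fun g => M g + M' g) := by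
  obtain ⟨B, h1, h2⟩ := h
  obtain ⟨B', h1', h2'⟩ := h'
  exact ⟨fun g => B g + B' g, h1.add h1', (h2.add h2').congr fun g => by
    rw [add_add_add_comm]⟩

/-- `M + A = M' + A'` -/
theorem Vr.trans {I : Set G} {M M' A A' : G → Multiset k} (h : Vr I M') (hA : Gn I A) (hA' : Gn I A')
    (e : ∀ g, M g + A g = M' g + A' g) : Vr I M := by
  obtain ⟨B, h1, h2⟩ := h
  refine ⟨fun g => A g + B g, hA.add h1, (h2.add hA').congr fun g => ?_⟩
  rw [← add_assoc, e, add_right_comm]

theorem Vr.sum {I : Set G} {α : Type*} (s : Finset α) {M : α → G → Multiset k} (h : ∀ a ∈ s, Vr I (M a)) :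
    Vr I (fun g => ∑ a ∈ s, M a g) := by
  classical
  induction s using Finset.induction_on with
  | empty => exact (Vr.of_gn (Gn.zero I)).congr fun g => by rw [Finset.sum_empty]
  | insert a s ha ih =>
    exact ((h a (Finset.mem_insert_self a s)).add (ih fun b hb => h b (Finset.mem_insert_of_mem hb))).congr
      fun g => by rw [Finset.sum_insert ha]

theorem Hyp.vr_inv [IsAlgClosed k] [IsTopologicalRing k] [ContinuousInv G] (h : Hyp I χ e E r J P Q) (i : Fin N)
    {M : G → Multiset k} (hM : Vr I M) : Vr I (fun g => sc (χ i g)⁻¹ (M g)) := by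
  obtain ⟨B, h1, h2⟩ := hM
  exact ⟨_, h.gn_inv i h1, (h.gn_inv i h2).congr fun g => sc_add _ _ _⟩

theorem Hyp.vr_tw [IsAlgClosed k] [IsTopologicalRing k] (h : Hyp I χ e E r J P Q) (i : Fin N)
    {M : G → Multiset k} (hM : Vr I M) : Vr I (fun g => sc (χ i g) (M g)) := by
  obtain ⟨B, h1, h2⟩ := hM
  exact ⟨_, h.gn_tw i h1, (h.gn_tw i h2).congr fun g => sc_add _ _ _⟩

theorem Hyp.vr_Q_lt [IsAlgClosed k] [IsTopologicalRing k] [ContinuousInv G] (h : Hyp I χ e E r J P Q) {i i' : Fin N}
    (hi : e i' < e i) (j : ℤ) : Vr I (fun g => Q g j) := by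
  -- a bound for the degrees
  obtain ⟨b, hb⟩ : ∃ b : ℤ, ∀ j, b < j → j + e i ∉ J := by
    obtain ⟨b, hb⟩ := J.bddAbove
    exact ⟨b - e i, fun j hj hmem => by
      have := hb hmem
      linarith⟩
  have key : ∀ t : ℕ, ∀ j : ℤ, b - t < j → Vr I (fun g => Q g j) := by
    intro t
    induction t with
    | zero =>
      intro j hj
      rw [Nat.cast_zero, sub_zero] at hj
      exact (Vr.of_gn (Gn.zero I)).congr fun g => (h.Q_out i g (hb j hj)).symm
    | succ t ih =>
      intro j hj
      have h1 := ih (j + (e i - e i')) (by push_cast at hj; linarith)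
      have h2 : Vr I (fun g => sc (χ i g) (Q g j)) := by
        refine Vr.trans (h.vr_tw i' h1) (h.gn i' (j + e i)) (h.gn i (j + e i)) fun g => ?_
        have e1 := h.rel g i (j + e i)
        have e2 := h.rel g i' (j + e i)
        rw [add_sub_cancel_right] at e1
        have e3 : j + e i - e i' = j + (e i - e i') := by ring
        rw [e3] at e2
        rw [← e1, ← e2]
        abel
      exact (h.vr_inv i h2).congr fun g => by rw [sc_sc, inv_mul_cancel, sc_one]
  exact key (b - j + 1).toNat j (by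
    have := Int.self_le_toNat (b - j + 1)
    linarith)

theorem Hyp.vr_Q [IsAlgClosed k] [IsTopologicalRing k] [ContinuousInv G] (h : Hyp I χ e E r J P Q) {i i' : Fin N}
    (hi : i ≠ i') (j : ℤ) : Vr I (fun g => Q g j) := by
  rcases lt_trichotomy (e i) (e i') with h1 | h1 | h1
  · exact h.vr_Q_lt h1 j
  · exact absurd (h.inj h1) hi
  · exact h.vr_Q_lt h1 j

/-- the difference -/
theorem Vr.sub {I : Set G} {M M' A : G → Multiset k} (h : Vr I M') (hA : Gn I A) (e : ∀ g, M g + M' g = A g) :
    Vr I M := by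
  obtain ⟨B, h1, h2⟩ := h
  refine ⟨fun g => M' g + B g, h2, (hA.add h1).congr fun g => ?_⟩
  rw [← e, add_assoc]

theorem Hyp.vr_P [IsAlgClosed k] [IsTopologicalRing k] [ContinuousInv G] (h : Hyp I χ e E r J P Q) {i i' : Fin N}
    (hi : i ≠ i') (j : ℤ) : Vr I (fun g => P g j) :=
  Vr.sub (h.vr_tw i (h.vr_Q hi (j - e i))) (h.gn i j) fun g => h.rel g i j

end alg

end Pool.Agent.H499.ES
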