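import Pool.Agent.H499.ES.Grd
import Pool.Agent.H499.ES.Alg

/-! Diagonalization of the grading, block by block. -/

set_option autoImplicit false
set_option linter.all false

namespace Pool.Agent.H499.ES

open Module Matrix Polynomial

section diag

variable {k : Type*} [Field k] {m : ℕ}

theorem exists_diag [CharZero k] {w : Matrix (Fin m) (Fin m) k}
    (hw : (⨆ c : ℤ, (tl w).eigenspace (c : k)) = ⊤) :
    ∃ (U U' : Matrix (Fin m) (Fin m) k) (c : Fin m → ℤ), U * U' = 1 ∧ U' * U = 1 ∧
      ∀ a, U a ∈ (tl w).eigenspace (c a : k) := by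
  classical
  have hind : iSupIndep (fun c : ℤ => (tl w).eigenspace (c : k)) :=
    (Module.End.eigenspaces_iSupIndep (tl w)).comp Int.cast_injective
  have hint := DirectSum.isInternal_submodule_of_iSupIndep_of_iSup_eq_top hind hw
  let b := hint.collectedBasis (fun c => Module.finBasis k _)
  let σ := b.indexEquiv (Pi.basisFun k (Fin m))
  let b' := b.reindex σ
  refine ⟨((Pi.basisFun k (Fin m)).toMatrix b')ᵀ, (b'.toMatrix (Pi.basisFun k (Fin m)))ᵀ, fun a => (σ.symm a).1,
    ?_, ?_, fun a => ?_⟩
  · rw [← Matrix.transpose_mul, Module.Basis.toMatrix_mul_toMatrix_flip, Matrix.transpose_one]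
  · rw [← Matrix.transpose_mul, Module.Basis.toMatrix_mul_toMatrix_flip, Matrix.transpose_one]
  · have h1 : ((Pi.basisFun k (Fin m)).toMatrix b')ᵀ a = b (σ.symm a) := by
      funext x
      rw [Matrix.transpose_apply, Module.Basis.toMatrix_apply, Pi.basisFun_repr, Module.Basis.reindex_apply]
    rw [h1]
    exact hint.collectedBasis_mem _ _

theorem mul_diag {U Y : Matrix (Fin m) (Fin m) k} {μ : Fin m → k} (h : ∀ a, U a ∈ (tl Y).eigenspace (μ a)) :
    U * Y = diagonal μ * U := by
  ext a y
  have h1 := congrFun (Module.End.mem_eigenspace_iff.1 (h a)) y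
  rw [tl_apply, Pi.smul_apply, smul_eq_mul] at h1
  rw [Matrix.diagonal_mul, ← h1, Matrix.mul_apply, Matrix.mulVec, dotProduct]
  exact Finset.sum_congr rfl fun x _ => by rw [Matrix.transpose_apply, mul_comm]

theorem roots_prod_sum {α : Type*} (F : Finset α) (p : α → k[X]) (hp : ∀ a, (p a).Monic) :
    (∏ a ∈ F, p a).roots = ∑ a ∈ F, (p a).roots := by
  classical
  induction F using Finset.induction_on with
  | empty =>
    rw [Finset.prod_empty, Finset.sum_empty, Polynomial.roots_one]
    rfl
  | insert a F ha ih =>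
    rw [Finset.prod_insert ha, Finset.sum_insert ha, ← ih,
      Polynomial.roots_mul ((hp a).mul (Polynomial.monic_prod_of_monic _ _ fun b _ => hp b)).ne_zero]

theorem charpoly_scale [IsAlgClosed k] {R : Matrix (Fin m) (Fin m) k} {c : Fin m → ℤ}
    (hc : ∀ a b, c a ≠ c b → R a b = 0) {J : Finset ℤ} (hJ : ∀ a, c a ∈ J) (s : kˣ) :
    (diagonal (fun a => ((s ^ c a : kˣ) : k)) * R).charpoly.roots =
      ∑ j ∈ J, sc (s ^ j) (R.toSquareBlock c j).charpoly.roots := by
  classical
  have h1 : (diagonal (fun a => ((s ^ c a : kˣ) : k)) * R).BlockTriangular c := by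
    intro a b hab
    rw [Matrix.diagonal_mul, hc a b (by
      intro h
      rw [h] at hab
      exact lt_irrefl _ hab), mul_zero]
  rw [h1.charpoly, roots_prod_sum _ _ fun j => Matrix.charpoly_monic _]
  rw [← Finset.sum_subset (s₁ := Finset.univ.image c) (s₂ := J)]
  · refine Finset.sum_congr rfl fun j _ => ?_
    have h2 : (diagonal (fun a => ((s ^ c a : kˣ) : k)) * R).toSquareBlock c j =
        ((s ^ j : kˣ) : k) • R.toSquareBlock c j := by
      ext a b
      rw [Matrix.smul_apply, Matrix.toSquareBlock_def, Matrix.toSquareBlock_def, Matrix.of_apply, Matrix.of_apply,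
        Matrix.diagonal_mul, a.2, smul_eq_mul]
    rw [h2, roots_smul]
    rfl
  · intro j hj
    obtain ⟨a, -, rfl⟩ := Finset.mem_image.1 hj
    exact hJ a
  · intro j _ hj
    have h3 : Multiset.card (R.toSquareBlock c j).charpoly.roots = 0 := by
      rw [card_roots_charpoly, Fintype.card_eq_zero_iff]
      refine ⟨fun a => hj (Finset.mem_image.2 ⟨a.1, Finset.mem_univ _, a.2⟩)⟩
    rw [Multiset.card_eq_zero.1 h3, sc_zero]

/-- the graded pieces of a representation -/
theorem exists_pieces [CharZero k] [IsAlgClosed k] {G : Type*} [Group G] (R : G →* Matrix (Fin m) (Fin m) k)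
    {w : Matrix (Fin m) (Fin m) k} (hw : (⨆ c : ℤ, (tl w).eigenspace (c : k)) = ⊤)
    (hc : ∀ g, R g * w = w * R g) :
    ∃ (c : Fin m → ℤ) (U U' : Matrix (Fin m) (Fin m) k) (R' : G →* Matrix (Fin m) (Fin m) k),
      (∀ g, R' g = U * R g * U') ∧ U * U' = 1 ∧ (∀ g a b, c a ≠ c b → R' g a b = 0) ∧
      ∀ J : Finset ℤ, (∀ a, c a ∈ J) → ∀ (s : kˣ) (Y : Matrix (Fin m) (Fin m) k),
        (∀ c : ℤ, (tl w).eigenspace (c : k) ≤ (tl Y).eigenspace ((s ^ c : kˣ) : k)) → ∀ g,
          (Y * R g).charpoly.roots = ∑ j ∈ J, sc (s ^ j) ((R' g).toSquareBlock c j).charpoly.roots := by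
  obtain ⟨U, U', c, h1, h2, h3⟩ := exists_diag hw
  let R' : G →* Matrix (Fin m) (Fin m) k :=
    { toFun := fun g => U * R g * U'
      map_one' := by rw [map_one, mul_one, h1]
      map_mul' := fun g h => by
        rw [map_mul]
        calc U * (R g * R h) * U' = U * R g * (U' * U) * R h * U' := by rw [h2]; noncomm_ring
          _ = _ := by noncomm_ring }
  have hR' : ∀ g, R' g = U * R g * U' := fun g => rfl
  have hoff : ∀ g a b, c a ≠ c b → R' g a b = 0 := by
    intro g a b hab
    have h4 := mul_diag h3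
    have h5 : diagonal (fun a => (c a : k)) * R' g = R' g * diagonal (fun a => (c a : k)) := by
      calc diagonal (fun a => (c a : k)) * R' g = (diagonal (fun a => (c a : k)) * U) * R g * U' := by
            rw [hR']; noncomm_ring
        _ = U * w * R g * U' := by rw [← h4]
        _ = U * (w * R g) * U' := by noncomm_ring
        _ = U * R g * (U' * U) * w * U' := by rw [← hc, h2]; noncomm_ring
        _ = (U * R g * U') * (U * w) * U' := by noncomm_ring
        _ = (U * R g * U') * (diagonal (fun a => (c a : k)) * U) * U' := by rw [h4]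
        _ = (U * R g * U') * diagonal (fun a => (c a : k)) * (U * U') := by noncomm_ring
        _ = R' g * diagonal (fun a => (c a : k)) := by rw [h1, mul_one, hR']
    have h6 := congrFun (congrFun h5 a) b
    rw [Matrix.diagonal_mul, Matrix.mul_diagonal, mul_comm, ← sub_eq_zero, ← mul_sub] at h6
    rcases mul_eq_zero.1 h6 with h7 | h7
    · exact h7
    · rw [sub_eq_zero] at h7
      exact absurd (Int.cast_injective h7) hab
  refine ⟨c, U, U', R', hR', h1, hoff, fun J hJ s Y hY g => ?_⟩
  have h4 := mul_diag (Y := Y) (U := U) (μ := fun a => ((s ^ c a : kˣ) : k)) fun a => hY _ (h3 a)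
  rw [← charpoly_scale (hoff g) hJ s]
  have h5 : diagonal (fun a => ((s ^ c a : kˣ) : k)) * R' g = U * (Y * R g) * U' := by
    calc diagonal (fun a => ((s ^ c a : kˣ) : k)) * R' g =
          (diagonal (fun a => ((s ^ c a : kˣ) : k)) * U) * R g * U' := by rw [hR']; noncomm_ring
      _ = U * Y * R g * U' := by rw [← h4]
      _ = _ := by noncomm_ring
  rw [h5, Matrix.charpoly_mul_comm (U * (Y * R g)) U', ← mul_assoc, h2, one_mul]

end diag

section bd

variable {k : Type*} [Field k] {m : ℕ} {κ : Type*} [Fintype κ] [DecidableEq κ] {G : Type*} [Group G]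

/-- the direct sum -/
noncomputable def bd (R : κ → G →* Matrix (Fin m) (Fin m) k) : G →* Matrix (Fin m × κ) (Fin m × κ) k where
  toFun g := blockDiagonal fun i => R i g
  map_one' := by
    have : (fun i => R i 1) = 1 := by funext i; rw [map_one]; rfl
    rw [this, blockDiagonal_one]
  map_mul' g h := by
    have : (fun i => R i (g * h)) = fun i => R i g * R i h := by funext i; rw [map_mul]
    rw [this, blockDiagonal_mul]

theorem bd_apply (R : κ → G →* Matrix (Fin m) (Fin m) k) (g : G) : bd R g = blockDiagonal fun i => R i g := rfl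

/-- the projections -/
def pr (i : κ) : Matrix (Fin m × κ) (Fin m × κ) k := diagonal fun q => if q.2 = i then 1 else 0

/-- the projections to the blocks -/
def outv (i : κ) : (Fin m × κ → k) →ₗ[k] (Fin m → k) := LinearMap.funLeft k k fun a => (a, i)

/-- the inclusions of the blocks -/
def inv (i : κ) : (Fin m → k) →ₗ[k] (Fin m × κ → k) where
  toFun v q := if q.2 = i then v q.1 else 0
  map_add' v w := by
    funext q
    show (if q.2 = i then (v + w) q.1 else 0) = (if q.2 = i then v q.1 else 0) + (if q.2 = i then w q.1 else 0)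
    split_ifs
    · rfl
    · rw [add_zero]
  map_smul' c v := by
    funext q
    show (if q.2 = i then (c • v) q.1 else 0) = c * (if q.2 = i then v q.1 else 0)
    split_ifs
    · rfl
    · rw [mul_zero]

theorem outv_apply (i : κ) (w : Fin m × κ → k) (a : Fin m) : outv i w a = w (a, i) := rfl

theorem inv_apply (i : κ) (v : Fin m → k) (q : Fin m × κ) : inv i v q = if q.2 = i then v q.1 else 0 := rfl

theorem ext_out {w w' : Fin m × κ → k} (h : ∀ i, outv i w = outv i w') : w = w' := by
  funext ⟨a, i⟩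
  exact congrFun (h i) a

theorem out_in (i j : κ) (v : Fin m → k) : outv j (inv i v) = if j = i then v else 0 := by
  funext a
  rw [outv_apply, inv_apply]
  show (if j = i then v a else 0) = _
  split_ifs <;> rfl

theorem out_mul (M : κ → Matrix (Fin m) (Fin m) k) (w : Fin m × κ → k) (i : κ) :
    outv i (blockDiagonal M *ᵥ w) = M i *ᵥ outv i w := by
  funext a
  rw [outv_apply, Matrix.mulVec, dotProduct, Fintype.sum_prod_type, Matrix.mulVec, dotProduct]
  refine Finset.sum_congr rfl fun b _ => ?_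
  rw [Finset.sum_eq_single i]
  · rw [blockDiagonal_apply_eq, outv_apply]
  · intro j _ hj
    rw [blockDiagonal_apply_ne _ _ _ (Ne.symm hj), zero_mul]
  · intro h
    exact absurd (Finset.mem_univ _) h

theorem pr_mul (i : κ) (w : Fin m × κ → k) : pr i *ᵥ w = inv i (outv i w) := by
  funext q
  rw [pr, Matrix.mulVec_diagonal, inv_apply]
  split_ifs with h
  · rw [one_mul, outv_apply, ← h]
  · rw [zero_mul]

theorem pr_comm (R : κ → G →* Matrix (Fin m) (Fin m) k) (i : κ) (g : G) : pr i * bd R g = bd R g * pr i := by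
  ext p q
  rw [pr, Matrix.diagonal_mul, Matrix.mul_diagonal, bd_apply, blockDiagonal_apply]
  by_cases h : p.2 = q.2
  · rw [if_pos h, h, mul_comm]
  · rw [if_neg h, mul_zero, zero_mul]

theorem block_of_comm {Y : Matrix (Fin m × κ) (Fin m × κ) k} (h : ∀ i, pr i * Y = Y * pr i) :
    Y = blockDiagonal (blockDiag Y) := by
  ext ⟨a, i⟩ ⟨b, j⟩
  by_cases hij : i = j
  · subst hij
    rw [blockDiagonal_apply_eq, blockDiag_apply]
  · rw [blockDiagonal_apply_ne _ _ _ hij]
    have h1 := congrFun (congrFun (h i) (a, i)) (b, j)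
    rw [pr, Matrix.diagonal_mul, Matrix.mul_diagonal] at h1
    rw [if_pos rfl, one_mul, if_neg (Ne.symm hij), mul_zero] at h1
    exact h1

/-- semisimplicity of a matrix representation -/
def SSm (R : G →* Matrix (Fin m) (Fin m) k) : Prop :=
  ∀ W : Submodule k (Fin m → k), (∀ g, ∀ w ∈ W, R g *ᵥ w ∈ W) →
    ∃ W' : Submodule k (Fin m → k), (∀ g, ∀ w ∈ W', R g *ᵥ w ∈ W') ∧ IsCompl W W'

theorem ss_bd {R : κ → G →* Matrix (Fin m) (Fin m) k} (h : ∀ i, SSm (R i)) :
    SS (bd R) (Set.range (pr (k := k) (m := m) (κ := κ))) := by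
  intro W hW hPr
  let Wi : κ → Submodule k (Fin m → k) := fun i => W.comap (inv i)
  have hWi : ∀ i, ∀ g, ∀ v ∈ Wi i, R i g *ᵥ v ∈ Wi i := by
    intro i g v hv
    have h1 := hW g _ hv
    have h2 : inv i (R i g *ᵥ v) = bd R g *ᵥ inv i v := by
      refine ext_out fun j => ?_
      rw [out_in, bd_apply, out_mul, out_in]
      split_ifs with hj
      · rw [hj]
      · rw [Matrix.mulVec_zero]
    show inv i (R i g *ᵥ v) ∈ W
    rw [h2]
    exact h1
  choose W' hW' hc using fun i => h i (Wi i) (hWi i)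
  refine ⟨⨅ i, (W' i).comap (outv i), fun g w hw => ?_, ?_⟩
  · rw [Submodule.mem_iInf] at hw ⊢
    intro i
    show outv i (bd R g *ᵥ w) ∈ W' i
    rw [bd_apply, out_mul]
    exact hW' i g _ (hw i)
  · rw [isCompl_iff, Submodule.disjoint_def, codisjoint_iff]
    refine ⟨fun w hw hw' => ?_, ?_⟩
    · rw [Submodule.mem_iInf] at hw'
      refine ext_out fun i => ?_
      rw [map_zero]
      have h1 : outv i w ∈ Wi i := by
        show inv i (outv i w) ∈ W
        rw [← pr_mul]
        exact hPr _ ⟨i, rfl⟩ w hw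
      have h2 : outv i w ∈ Wi i ⊓ W' i := ⟨h1, hw' i⟩
      rw [(hc i).inf_eq_bot] at h2
      exact h2
    · rw [eq_top_iff]
      intro w _
      have h1 : ∀ i, ∃ a ∈ Wi i, ∃ b ∈ W' i, a + b = outv i w := fun i => by
        have : outv i w ∈ Wi i ⊔ W' i := by rw [(hc i).sup_eq_top]; trivial
        exact Submodule.mem_sup.1 this
      choose a ha b hb hab using h1
      have h2 : ∀ (f : κ → Fin m → k) j, outv j (∑ i, inv i (f i)) = f j := by
        intro f j
        rw [map_sum, Finset.sum_congr rfl fun i _ => out_in i j (f i)]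
        rw [Finset.sum_ite_eq Finset.univ j, if_pos (Finset.mem_univ _)]
      refine Submodule.mem_sup.2 ⟨∑ i, inv i (a i), Submodule.sum_mem _ fun i _ => ha i, ∑ i, inv i (b i), ?_, ?_⟩
      · rw [Submodule.mem_iInf]
        intro j
        show outv j (∑ i, inv i (b i)) ∈ W' j
        rw [h2]
        exact hb j
      · refine ext_out fun j => ?_
        rw [map_add, h2, h2, hab]

theorem tl_bd (M : κ → Matrix (Fin m) (Fin m) k) (v : Fin m × κ → k) (i : κ) :
    outv i (tl (blockDiagonal M) v) = tl (M i) (outv i v) := by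
  rw [tl_apply, tl_apply, blockDiagonal_transpose, out_mul]

theorem out_eigen {M : κ → Matrix (Fin m) (Fin m) k} {a : k} {v : Fin m × κ → k}
    (hv : v ∈ (tl (blockDiagonal M)).eigenspace a) (i : κ) : outv i v ∈ (tl (M i)).eigenspace a := by
  rw [Module.End.mem_eigenspace_iff] at hv ⊢
  rw [← tl_bd, hv, map_smul]

theorem in_eigen {M : κ → Matrix (Fin m) (Fin m) k} {a : k} {i : κ} {v : Fin m → k}
    (hv : v ∈ (tl (M i)).eigenspace a) : inv i v ∈ (tl (blockDiagonal M)).eigenspace a := by
  rw [Module.End.mem_eigenspace_iff] at hv ⊢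
  refine ext_out fun j => ?_
  rw [tl_bd, out_in, map_smul, out_in]
  split_ifs with h
  · rw [h, hv]
  · rw [map_zero, smul_zero]

theorem iSup_block {M : κ → Matrix (Fin m) (Fin m) k} (h : (⨆ c : ℤ, (tl (blockDiagonal M)).eigenspace (c : k)) = ⊤)
    (i : κ) : (⨆ c : ℤ, (tl (M i)).eigenspace (c : k)) = ⊤ := by
  rw [eq_top_iff]
  intro v _
  have h1 : inv i v ∈ ⨆ c : ℤ, (tl (blockDiagonal M)).eigenspace (c : k) := by rw [h]; trivial
  have h2 : outv i (inv i v) ∈ (⨆ c : ℤ, (tl (blockDiagonal M)).eigenspace (c : k)).map (outv i) := ⟨_, h1, rfl⟩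
  rw [out_in, if_pos rfl, Submodule.map_iSup] at h2
  have h3 : (⨆ c : ℤ, ((tl (blockDiagonal M)).eigenspace (c : k)).map (outv i)) ≤
      ⨆ c : ℤ, (tl (M i)).eigenspace (c : k) := by
    refine iSup_mono fun c => ?_
    rintro _ ⟨u, hu, rfl⟩
    exact out_eigen hu i
  exact h3 h2

theorem scale_block {M N : κ → Matrix (Fin m) (Fin m) k} {a b : k}
    (h : (tl (blockDiagonal M)).eigenspace a ≤ (tl (blockDiagonal N)).eigenspace b) (i : κ) :
    (tl (M i)).eigenspace a ≤ (tl (N i)).eigenspace b := by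
  intro v hv
  have h1 := out_eigen (h (in_eigen hv)) i
  rwa [out_in, if_pos rfl] at h1

end bd

end Pool.Agent.H499.ES
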