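import Pool.Agent.H499.ES.Poly

/-! A central element of the Lie algebra which separates given characters. -/

set_option autoImplicit false
set_option linter.all false

namespace Pool.Agent.H499.ES

open Module Matrix MvPolynomial

section tl

variable {k : Type*} {ι : Type*} [Field k] [Fintype ι] [DecidableEq ι]

theorem tl_pow (Y : Matrix ι ι k) (n : ℕ) : tl (Y ^ n) = tl Y ^ n := by
  induction n with
  | zero => rw [pow_zero, pow_zero, tl_one]
  | succ n ih => rw [pow_succ, tl_mul, ih, ← pow_succ']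

theorem tl_add (Y Z : Matrix ι ι k) : tl (Y + Z) = tl Y + tl Z := by
  apply LinearMap.ext
  intro w
  rw [LinearMap.add_apply, tl_apply, tl_apply, tl_apply, Matrix.transpose_add, Matrix.add_mulVec]

theorem tl_smul (c : k) (Y : Matrix ι ι k) : tl (c • Y) = c • tl Y := by
  apply LinearMap.ext
  intro w
  rw [LinearMap.smul_apply, tl_apply, tl_apply, Matrix.transpose_smul, Matrix.smul_mulVec]

theorem tl_inj {Y Z : Matrix ι ι k} (h : tl Y = tl Z) : Y = Z := by
  have h1 : Yᵀ = Zᵀ := Matrix.toLin'.injective h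
  exact Matrix.transpose_injective h1

theorem tl_surj (s : End k (ι → k)) : ∃ Y : Matrix ι ι k, tl Y = s := by
  refine ⟨(LinearMap.toMatrix' s)ᵀ, ?_⟩
  rw [tl, Matrix.transpose_transpose, Matrix.toLin'_toMatrix']

theorem tl_aeval (Y : Matrix ι ι k) (p : Polynomial k) : tl (Polynomial.aeval Y p) = Polynomial.aeval (tl Y) p := by
  induction p using Polynomial.induction_on with
  | C a =>
    rw [Polynomial.aeval_C, Polynomial.aeval_C, Algebra.algebraMap_eq_smul_one, Algebra.algebraMap_eq_smul_one,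
      tl_smul, tl_one]
  | add p q hp hq => rw [map_add, map_add, tl_add, hp, hq]
  | monomial n a _ =>
    rw [map_mul, map_mul, map_pow, map_pow, Polynomial.aeval_X, Polynomial.aeval_X, Polynomial.aeval_C,
      Polynomial.aeval_C, Algebra.algebraMap_eq_smul_one, Algebra.algebraMap_eq_smul_one, smul_mul_assoc, one_mul,
      tl_smul, tl_pow, smul_mul_assoc, one_mul]

theorem trace_tl (Y : Matrix ι ι k) : LinearMap.trace k (ι → k) (tl Y) = Y.trace := by
  rw [tl, Matrix.trace_toLin'_eq, Matrix.trace_transpose]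

theorem nil_tl {Y : Matrix ι ι k} (h : IsNilpotent (tl Y)) : IsNilpotent Y := by
  obtain ⟨n, hn⟩ := h
  refine ⟨n, tl_inj ?_⟩
  rw [tl_pow, hn]
  apply LinearMap.ext
  intro w
  rw [tl_apply, Matrix.transpose_zero, Matrix.zero_mulVec]
  rfl

theorem nil_trace {Y : Matrix ι ι k} (h : IsNilpotent Y) : Y.trace = 0 :=
  (Matrix.isNilpotent_trace_of_isNilpotent h).eq_zero

theorem comm_aeval {Y Z : Matrix ι ι k} (hZ : Z * Y = Y * Z) (p : Polynomial k) : Commute Z (Polynomial.aeval Y p) := by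
  have h0 : Commute Z Y := hZ
  induction p using Polynomial.induction_on with
  | C a =>
    rw [Polynomial.aeval_C]
    exact (Algebra.commutes a Z).symm
  | add p q hp hq =>
    rw [map_add]
    exact hp.add_right hq
  | monomial n a _ =>
    rw [map_mul, map_pow, Polynomial.aeval_X, Polynomial.aeval_C]
    exact Commute.mul_right (Algebra.commutes a Z).symm (h0.pow_right (n + 1))

/-- replicas of matrices -/
theorem exists_mat [IsAlgClosed k] (Y : Matrix ι ι k) (φ : k → k) : ∃ X : Matrix ι ι k,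
    (∀ a, ∀ w ∈ (tl Y).maxGenEigenspace a, Xᵀ *ᵥ w = φ a • w) ∧ ∀ Z : Matrix ι ι k, Z * Y = Y * Z → Z * X = X * Z := by
  obtain ⟨p, hp⟩ := exists_poly (tl Y) φ
  refine ⟨Polynomial.aeval Y p, fun a w hw => ?_, fun Z hZ => ?_⟩
  · rw [← tl_apply, tl_aeval]
    exact hp a w hw
  · exact comm_aeval hZ p

end tl

section center

variable {k : Type*} {ι : Type*} [Field k] [Fintype ι] [DecidableEq ι] {G : Type*} [Group G]

/-- the radical of the trace form -/
noncomputable def rad (V : G →* Matrix ι ι k) : Submodule k (Matrix ι ι k) where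
  carrier := {Y | Y ∈ lie V ∧ ∀ Z ∈ lie V, (Y * Z).trace = 0}
  add_mem' := by
    rintro a b ⟨ha, ha'⟩ ⟨hb, hb'⟩
    exact ⟨(lie V).add_mem ha hb, fun Z hZ => by rw [add_mul, Matrix.trace_add, ha' Z hZ, hb' Z hZ, add_zero]⟩
  zero_mem' := ⟨(lie V).zero_mem, fun Z _ => by rw [zero_mul, Matrix.trace_zero]⟩
  smul_mem' := by
    rintro c a ⟨ha, ha'⟩
    exact ⟨(lie V).smul_mem c ha, fun Z hZ => by rw [smul_mul_assoc, Matrix.trace_smul, ha' Z hZ, smul_zero]⟩

theorem tr_inv (a b c : Matrix ι ι k) : ((a * b - b * a) * c).trace = (a * (b * c - c * b)).trace := by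
  rw [sub_mul, mul_sub, Matrix.trace_sub, Matrix.trace_sub, mul_assoc b a c, Matrix.trace_mul_comm b (a * c),
    mul_assoc, mul_assoc]

theorem rad_lie {V : G →* Matrix ι ι k} {Y Z : Matrix ι ι k} (hY : Y ∈ rad V) (hZ : Z ∈ rad V) :
    Y * Z - Z * Y ∈ rad V :=
  ⟨lie_lie V hY.1 hZ.1, fun W hW => by rw [tr_inv]; exact hY.2 _ (lie_lie V hZ.1 hW)⟩

theorem rad_conj {V : G →* Matrix ι ι k} {Y : Matrix ι ι k} (hY : Y ∈ rad V) (g : G) : V g * Y * V g⁻¹ ∈ rad V := by
  have h0 : ∀ Z ∈ lie V, ∀ h, V h * Z * V h⁻¹ ∈ lie V := fun Z hZ h => by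
    have := lie_conj V hZ h⁻¹
    rwa [inv_inv] at this
  refine ⟨h0 Y hY.1 g, fun Z hZ => ?_⟩
  have h1 : (V g * Y * V g⁻¹ * Z).trace = (Y * (V g⁻¹ * Z * V g)).trace := by
    rw [mul_assoc, mul_assoc, Matrix.trace_mul_comm, mul_assoc, mul_assoc]
  rw [h1]
  exact hY.2 _ (lie_conj V hZ g)

variable [IsAlgClosed k] [CharZero k]

/-- replicas of the elements of the Lie algebra -/
theorem exists_repl (V : G →* Matrix ι ι k) {Z : Matrix ι ι k} (hZ : Z ∈ lie V) (φ : k →+ k) :
    ∃ X ∈ lie V, (∀ a, ∀ w ∈ (tl Z).maxGenEigenspace a, Xᵀ *ᵥ w = φ a • w) ∧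
      ∀ W : Matrix ι ι k, W * Z = Z * W → W * X = X * W := by
  obtain ⟨X, h1, h2⟩ := exists_mat Z fun a => φ a
  exact ⟨X, repl_lie V hZ φ X h1, h1, h2⟩

theorem nil_of_orth {V : G →* Matrix ι ι k} {Y : Matrix ι ι k} (hY : Y ∈ lie V)
    (h : ∀ (f : k →ₗ[ℚ] ℚ) (X : Matrix ι ι k), X ∈ lie V →
      (∀ a, ∀ w ∈ (tl Y).maxGenEigenspace a, Xᵀ *ᵥ w = algebraMap ℚ k (f a) • w) → (Y * X).trace = 0) :
    IsNilpotent Y := by
  refine nil_tl (nil_of_repl fun f s hs => ?_)
  obtain ⟨X, rfl⟩ := tl_surj s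
  have h1 : ∀ a, ∀ w ∈ (tl Y).maxGenEigenspace a, Xᵀ *ᵥ w = algebraMap ℚ k (f a) • w := fun a w hw => by
    rw [← tl_apply]
    exact hs a w hw
  have h2 : X ∈ lie V := repl_lie V hY (((algebraMap ℚ k) : ℚ →+ k).comp f.toAddMonoidHom) X h1
  rw [← tl_mul, trace_tl, Matrix.trace_mul_comm]
  exact h f X h2 h1

theorem rad_nil {V : G →* Matrix ι ι k} {Y : Matrix ι ι k} (hY : Y ∈ rad V) : IsNilpotent Y :=
  nil_of_orth hY.1 fun f X hX _ => hY.2 X hX

/-- semisimplicity for the subspaces stable under `Pr` -/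
def SS (V : G →* Matrix ι ι k) (Pr : Set (Matrix ι ι k)) : Prop :=
  ∀ W : Submodule k (ι → k), (∀ g, ∀ w ∈ W, V g *ᵥ w ∈ W) → (∀ p ∈ Pr, ∀ w ∈ W, p *ᵥ w ∈ W) →
    ∃ W' : Submodule k (ι → k), (∀ g, ∀ w ∈ W', V g *ᵥ w ∈ W') ∧ IsCompl W W'

theorem lie_stable {V : G →* Matrix ι ι k} {W : Submodule k (ι → k)} (hW : ∀ g, ∀ w ∈ W, V g *ᵥ w ∈ W)
    {Y : Matrix ι ι k} (hY : Y ∈ lie V) {w : ι → k} (hw : w ∈ W) : Y *ᵥ w ∈ W := by
  by_contra hcon
  obtain ⟨ψ, hψ, hψW⟩ := Submodule.exists_le_ker_of_notMem hcon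
  let f : Matrix ι ι k →ₗ[k] k := ψ ∘ₗ (LinearMap.applyₗ w) ∘ₗ (Matrix.toLin' (R := k) (m := ι) (n := ι)).toLinearMap
  have hf : ∀ Z, f Z = ψ (Z *ᵥ w) := fun Z => by
    show ψ (Matrix.toLin' Z w) = _
    rw [Matrix.toLin'_apply]
  have h1 := lin_rel V f (fun g => by rw [hf]; exact hψW (hW g w hw)) hY
  rw [hf] at h1
  exact hψ h1

theorem lie_comm {V : G →* Matrix ι ι k} {P : Matrix ι ι k} (hP : ∀ g, P * V g = V g * P) {Y : Matrix ι ι k}
    (hY : Y ∈ lie V) : P * Y = Y * P := by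
  ext a b
  let f : Matrix ι ι k →ₗ[k] k := (Matrix.entryLinearMap k k a b) ∘ₗ
    (LinearMap.mulLeft k P - LinearMap.mulRight k P)
  have hf : ∀ Z, f Z = (P * Z) a b - (Z * P) a b := fun Z => rfl
  have h1 := lin_rel V f (fun g => by rw [hf, hP, sub_self]) hY
  rw [hf, sub_eq_zero] at h1
  exact h1

/-- **The trace form is nondegenerate.** -/
theorem rad_zero {V : G →* Matrix ι ι k} {Pr : Set (Matrix ι ι k)} (hss : SS V Pr)
    (hPr : ∀ p ∈ Pr, ∀ g, p * V g = V g * p) {Y : Matrix ι ι k} (hY : Y ∈ rad V) : Y = 0 := by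
  let W : Submodule k (ι → k) :=
    { carrier := {w | ∀ Z ∈ rad V, Z *ᵥ w = 0}
      add_mem' := fun {a b} ha hb Z hZ => by rw [Matrix.mulVec_add, ha Z hZ, hb Z hZ, add_zero]
      zero_mem' := fun Z _ => Matrix.mulVec_zero Z
      smul_mem' := fun c a ha Z hZ => by rw [Matrix.mulVec_smul, ha Z hZ, smul_zero] }
  obtain ⟨W', hW', hc⟩ := hss W (fun g w hw Z hZ => by
    have h1 := rad_conj hZ g⁻¹
    rw [inv_inv] at h1
    have h2 : Z * V g = V g * (V g⁻¹ * Z * V g) := by
      rw [← mul_assoc, ← mul_assoc, ← map_mul, mul_inv_cancel, map_one, one_mul]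
    rw [Matrix.mulVec_mulVec, h2, ← Matrix.mulVec_mulVec, hw _ h1, Matrix.mulVec_zero]) (fun p hp w hw Z hZ => by
    rw [Matrix.mulVec_mulVec, ← lie_comm (hPr p hp) hZ.1, ← Matrix.mulVec_mulVec, hw Z hZ, Matrix.mulVec_zero])
  have hW0 : W' = ⊥ := by
    by_contra hne
    let R : Submodule k (End k (ι → k)) := (rad V).map (Matrix.toLin' (R := k) (m := ι) (n := ι)).toLinearMap
    obtain ⟨v, hv, hv0, hvk⟩ := engel (R := R) (by
      rintro _ ⟨Y1, hY1, rfl⟩ _ ⟨Y2, hY2, rfl⟩
      refine ⟨Y1 * Y2 - Y2 * Y1, rad_lie hY1 hY2, ?_⟩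
      show Matrix.toLin' (Y1 * Y2 - Y2 * Y1) = _
      rw [map_sub, Matrix.toLin'_mul, Matrix.toLin'_mul]
      rfl) (by
      rintro _ ⟨Y1, hY1, rfl⟩
      obtain ⟨n, hn⟩ := rad_nil hY1
      refine ⟨n, ?_⟩
      show (Matrix.toLin' Y1) ^ n = 0
      rw [← Matrix.toLin'_pow, hn, map_zero]) (W := W') (by
      rintro _ ⟨Y1, hY1, rfl⟩ w hw
      show Matrix.toLin' Y1 w ∈ W'
      rw [Matrix.toLin'_apply]
      exact lie_stable hW' hY1.1 hw) hne
    have h1 : v ∈ W ⊓ W' := ⟨fun Z hZ => by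
      rw [← Matrix.toLin'_apply]
      exact hvk _ ⟨Z, hZ, rfl⟩, hv⟩
    rw [hc.inf_eq_bot] at h1
    exact hv0 h1
  have h1 : W = ⊤ := by
    have h2 := hc.sup_eq_top
    rwa [hW0, sup_bot_eq] at h2
  apply Matrix.toLin'.injective
  apply LinearMap.ext
  intro v
  have h2 : v ∈ W := by rw [h1]; trivial
  rw [Matrix.toLin'_apply, h2 Y hY, map_zero]
  rfl

/-- functionals are given by the trace form -/
theorem exists_rep {V : G →* Matrix ι ι k} {Pr : Set (Matrix ι ι k)} (hss : SS V Pr)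
    (hPr : ∀ p ∈ Pr, ∀ g, p * V g = V g * p) (T : Matrix ι ι k →ₗ[k] k) :
    ∃ z ∈ lie V, ∀ Y ∈ lie V, (z * Y).trace = T Y := by
  let B : lie V →ₗ[k] Dual k (lie V) := LinearMap.mk₂ k (fun y z => ((y : Matrix ι ι k) * (z : Matrix ι ι k)).trace)
    (fun a b c => by rw [Submodule.coe_add, add_mul, Matrix.trace_add])
    (fun c a b => by rw [Submodule.coe_smul, smul_mul_assoc, Matrix.trace_smul])
    (fun a b c => by rw [Submodule.coe_add, mul_add, Matrix.trace_add])
    (fun c a b => by rw [Submodule.coe_smul, mul_smul_comm, Matrix.trace_smul])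
  have hinj : Function.Injective B := by
    rw [injective_iff_map_eq_zero]
    intro y hy
    apply Subtype.ext
    refine rad_zero hss hPr ⟨y.2, fun Z hZ => ?_⟩
    exact LinearMap.congr_fun hy ⟨Z, hZ⟩
  have hsurj : Function.Surjective B :=
    (LinearMap.injective_iff_surjective_of_finrank_eq_finrank (Subspace.dual_finrank_eq).symm).1 hinj
  obtain ⟨z, hz⟩ := hsurj (T ∘ₗ (lie V).subtype)
  exact ⟨z, z.2, fun Y hY => LinearMap.congr_fun hz ⟨Y, hY⟩⟩

/-- `p` is a character coordinate -/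
def IsChar (V : G →* Matrix ι ι k) (p : ι) : Prop := ∀ g a, a ≠ p → V g a p = 0 ∧ V g p a = 0

theorem lie_char {V : G →* Matrix ι ι k} {p : ι} (hp : IsChar V p) {Y : Matrix ι ι k} (hY : Y ∈ lie V) (a : ι)
    (ha : a ≠ p) : Y a p = 0 ∧ Y p a = 0 :=
  ⟨lin_rel V (Matrix.entryLinearMap k k a p) (fun g => (hp g a ha).1) hY,
    lin_rel V (Matrix.entryLinearMap k k p a) (fun g => (hp g a ha).2) hY⟩

theorem coord_mem {Y : Matrix ι ι k} {p : ι} (h : ∀ a, a ≠ p → Y p a = 0) :
    (Pi.single p (1 : k) : ι → k) ∈ (tl Y).maxGenEigenspace (Y p p) := by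
  refine Module.End.eigenspace_le_maxGenEigenspace ?_
  rw [Module.End.mem_eigenspace_iff, tl_apply]
  funext a
  rw [Matrix.mulVec_single_one, Matrix.col_apply, Matrix.transpose_apply, Pi.smul_apply, smul_eq_mul]
  by_cases ha : a = p
  · subst ha
    rw [Pi.single_eq_same, mul_one]
  · rw [h a ha, Pi.single_eq_of_ne ha, mul_zero]

theorem repl_coord {X Y : Matrix ι ι k} {φ : k → k}
    (hX : ∀ a, ∀ w ∈ (tl Y).maxGenEigenspace a, Xᵀ *ᵥ w = φ a • w) {p : ι} (h : ∀ a, a ≠ p → Y p a = 0) :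
    X p p = φ (Y p p) := by
  have h1 := congrFun (hX _ _ (coord_mem h)) p
  rw [Matrix.mulVec_single_one, Matrix.col_apply, Matrix.transpose_apply, Pi.smul_apply, smul_eq_mul,
    Pi.single_eq_same, mul_one] at h1
  exact h1

/-- the functional -/
noncomputable def Tf (p q : ι) : Matrix ι ι k →ₗ[k] k := Matrix.entryLinearMap k k p p - Matrix.entryLinearMap k k q q

theorem Tf_apply (p q : ι) (Y : Matrix ι ι k) : Tf p q Y = Y p p - Y q q := rfl

/-- **The central element** for two characters. -/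
theorem exists_central {V : G →* Matrix ι ι k} {Pr : Set (Matrix ι ι k)} (hss : SS V Pr)
    (hPr : ∀ p ∈ Pr, ∀ g, p * V g = V g * p) {p q : ι} (hp : IsChar V p) (hq : IsChar V q)
    (hpq : ∃ g, ∀ n : ℕ, 0 < n → (V g p p) ^ n ≠ (V g q q) ^ n) :
    ∃ z ∈ lie V, (∀ g, z * V g = V g * z) ∧ z p p ≠ z q q := by
  classical
  obtain ⟨z, hz, hz2⟩ := exists_rep hss hPr (Tf p q)
  -- conjugation does not change the functional on the Lie algebra
  have hconj : ∀ Y ∈ lie V, ∀ g, Tf p q (V g * Y * V g⁻¹) = Tf p q Y := by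
    intro Y hY g
    have h1 : ∀ r, IsChar V r → (V g * Y * V g⁻¹) r r = Y r r := by
      intro r hr
      have hYr := lie_char hr hY
      rw [Matrix.mul_apply, Finset.sum_eq_single r]
      · rw [Matrix.mul_apply, Finset.sum_eq_single r]
        · have h2 : V g r r * V g⁻¹ r r = 1 := by
            have h3 : (V g * V g⁻¹) r r = 1 := by rw [← map_mul, mul_inv_cancel, map_one, Matrix.one_apply_eq]
            rw [Matrix.mul_apply, Finset.sum_eq_single r] at h3
            · exact h3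
            · intro a _ ha
              rw [(hr g a ha).2, zero_mul]
            · intro h
              exact absurd (Finset.mem_univ _) h
          calc V g r r * Y r r * V g⁻¹ r r = Y r r * (V g r r * V g⁻¹ r r) := by ring
            _ = Y r r := by rw [h2, mul_one]
        · intro a _ ha
          rw [(hr g a ha).2, zero_mul]
        · intro h
          exact absurd (Finset.mem_univ _) h
      · intro a _ ha
        rw [(hr g⁻¹ a ha).1, mul_zero]
      · intro h
        exact absurd (Finset.mem_univ _) h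
    rw [Tf_apply, Tf_apply, h1 p hp, h1 q hq]
  have hcen : ∀ g, z * V g = V g * z := by
    intro g
    have h1 : z - V g⁻¹ * z * V g ∈ rad V := by
      refine ⟨(lie V).sub_mem hz (lie_conj V hz g), fun Y hY => ?_⟩
      have h2 : (V g⁻¹ * z * V g * Y).trace = (z * (V g * Y * V g⁻¹)).trace := by
        rw [mul_assoc, mul_assoc, Matrix.trace_mul_comm, mul_assoc, mul_assoc]
      have h3 : V g * Y * V g⁻¹ ∈ lie V := by
        have := lie_conj V hY g⁻¹
        rwa [inv_inv] at this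
      rw [sub_mul, Matrix.trace_sub, h2, hz2 Y hY, hz2 _ h3, hconj Y hY, sub_self]
    have h2 := sub_eq_zero.1 (rad_zero hss hPr h1)
    calc z * V g = V g * (V g⁻¹ * (z * V g)) := by
          rw [← mul_assoc (V g), ← map_mul, mul_inv_cancel, map_one, one_mul]
      _ = V g * z := by rw [← mul_assoc (V g⁻¹), ← h2]
  refine ⟨z, hz, hcen, fun heq => ?_⟩
  -- otherwise `z` is nilpotent
  have hnil : IsNilpotent z := by
    refine nil_of_orth hz fun f X hX hX2 => ?_
    rw [hz2 X hX, Tf_apply, repl_coord (φ := fun a => algebraMap ℚ k (f a)) hX2 fun a ha => (lie_char hp hz a ha).2,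
      repl_coord (φ := fun a => algebraMap ℚ k (f a)) hX2 fun a ha => (lie_char hq hz a ha).2, heq, sub_self]
  have hT : ∀ Y ∈ lie V, Tf p q Y = 0 := by
    intro Y hY
    rw [← hz2 Y hY]
    have hc : Commute z Y := lie_comm hcen hY
    exact nil_trace (hc.isNilpotent_mul_right hnil)
  -- an element on which the functional is not zero
  obtain ⟨g, hg⟩ := hpq
  have hunit : ∀ r, IsChar V r → V g r r ≠ 0 := by
    intro r hr h0
    have h3 : (V g * V g⁻¹) r r = 1 := by rw [← map_mul, mul_inv_cancel, map_one, Matrix.one_apply_eq]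
    rw [Matrix.mul_apply, Finset.sum_eq_single r, h0, zero_mul] at h3
    · exact zero_ne_one h3
    · intro a _ ha
      rw [(hr g a ha).2, zero_mul]
    · intro h
      exact absurd (Finset.mem_univ _) h
  let up : kˣ := Units.mk0 _ (hunit p hp)
  let uq : kˣ := Units.mk0 _ (hunit q hq)
  obtain ⟨θ, hθ⟩ := exists_theta (up / uq) (fun n hn h => hg n hn (by
    rw [div_pow, div_eq_one] at h
    exact congrArg (fun u : kˣ => (u : k)) h))
  have hθ' : θ (Additive.ofMul up) ≠ θ (Additive.ofMul uq) := by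
    intro h
    apply hθ
    rw [ofMul_div, map_sub, h, sub_self]
  let φ : k → k := fun a => if h : a = 0 then 0 else θ (Additive.ofMul (Units.mk0 a h))
  obtain ⟨X, hX, -⟩ := exists_mat (V g) φ
  have hX2 : X ∈ lie V := by
    refine repl_group V g θ X fun β w hw => ?_
    rw [hX _ w hw]
    have : φ (β : k) = θ (Additive.ofMul β) := by
      show (if h : (β : k) = 0 then 0 else θ (Additive.ofMul (Units.mk0 (β : k) h))) = _
      rw [dif_neg β.ne_zero, Units.mk0_val]
    rw [this]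
  have h1 := hT X hX2
  rw [Tf_apply, repl_coord hX fun a ha => (hp g a ha).2, repl_coord hX fun a ha => (hq g a ha).2, sub_eq_zero] at h1
  apply hθ'
  have e1 : φ (V g p p) = θ (Additive.ofMul up) := dif_neg (hunit p hp)
  have e2 : φ (V g q q) = θ (Additive.ofMul uq) := dif_neg (hunit q hq)
  rw [← e1, ← e2, h1]

end center

end Pool.Agent.H499.ES
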