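import Mathlib

/-! Generalized eigenspaces, replicas, and stable subspaces. -/

set_option autoImplicit false
set_option linter.all false

namespace Pool.Agent.H499.ES

open Module Polynomial

section idem

variable {k : Type*} [Field k]

/-- an idempotent polynomial -/
theorem idem {ι : Type*} [DecidableEq ι] (lam : ι → k) (hlam : Function.Injective lam) (s : Finset ι) (N : ℕ) (i : ι) :
    ∃ e : k[X], (X - C (lam i)) ^ N ∣ 1 - e ∧ ∀ j ∈ s, j ≠ i → (X - C (lam j)) ^ N ∣ e := by
  have hco : IsCoprime ((X - C (lam i)) ^ N) (∏ j ∈ s.erase i, (X - C (lam j)) ^ N) := by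
    refine IsCoprime.prod_right fun j hj => IsCoprime.pow ?_
    refine Polynomial.isCoprime_X_sub_C_of_isUnit_sub ?_
    rw [isUnit_iff_ne_zero, sub_ne_zero]
    intro h
    exact (Finset.mem_erase.1 hj).1 (hlam h).symm
  obtain ⟨a, b, hab⟩ := hco
  refine ⟨b * ∏ j ∈ s.erase i, (X - C (lam j)) ^ N, ?_, fun j hj hji => ?_⟩
  · refine ⟨a, ?_⟩
    rw [← hab]
    ring
  · refine Dvd.dvd.mul_left ?_ _
    exact Finset.dvd_prod_of_mem (fun j => (X - C (lam j)) ^ N) (Finset.mem_erase.2 ⟨hji, hj⟩)

variable {V : Type*} [AddCommGroup V] [Module k V]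

theorem mem_gen {τ : End k V} {a : k} {v : V} :
    v ∈ τ.maxGenEigenspace a ↔ ∃ n : ℕ, ((τ - algebraMap k (End k V) a) ^ n) v = 0 := by
  rw [Module.End.mem_maxGenEigenspace]
  rfl

theorem aeval_kill {τ : End k V} {a : k} {N : ℕ} {v : V} (hv : ((τ - algebraMap k (End k V) a) ^ N) v = 0)
    {e : k[X]} (he : (X - C a) ^ N ∣ e) : aeval τ e v = 0 := by
  obtain ⟨q, rfl⟩ := he
  rw [mul_comm, map_mul, Module.End.mul_apply, map_pow, map_sub, aeval_X, aeval_C, hv, map_zero]

theorem aeval_mem {τ : End k V} {I : Submodule k V} (hI : ∀ x ∈ I, τ x ∈ I) (e : k[X]) {x : V} (hx : x ∈ I) :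
    aeval τ e x ∈ I := by
  induction e using Polynomial.induction_on generalizing x with
  | C a =>
    rw [aeval_C, Module.algebraMap_end_apply]
    exact I.smul_mem _ hx
  | add p q hp hq =>
    rw [map_add, LinearMap.add_apply]
    exact I.add_mem (hp hx) (hq hx)
  | monomial n a h =>
    rw [pow_succ, ← mul_assoc, map_mul, aeval_X, Module.End.mul_apply]
    exact h (hI x hx)

/-- the components of an element of a stable subspace -/
theorem split {ι : Type*} (τ : End k V) (lam : ι → k) (hlam : Function.Injective lam) (s : Finset ι) (v : ι → V)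
    (hv : ∀ i ∈ s, v i ∈ τ.maxGenEigenspace (lam i)) {I : Submodule k V} (hI : ∀ x ∈ I, τ x ∈ I)
    (h : ∑ i ∈ s, v i ∈ I) : ∀ i ∈ s, v i ∈ I := by
  classical
  intro i hi
  have h1 : ∀ j : ι, ∃ n : ℕ, j ∈ s → ((τ - algebraMap k (End k V) (lam j)) ^ n) (v j) = 0 := by
    intro j
    by_cases hj : j ∈ s
    · obtain ⟨n, hn⟩ := mem_gen.1 (hv j hj)
      exact ⟨n, fun _ => hn⟩
    · exact ⟨0, fun h => absurd h hj⟩
  choose n hn using h1
  set N := ∑ j ∈ s, n j with hN
  have hN2 : ∀ j ∈ s, ((τ - algebraMap k (End k V) (lam j)) ^ N) (v j) = 0 := by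
    intro j hj
    have h2 : n j ≤ N := Finset.single_le_sum (f := n) (fun _ _ => Nat.zero_le _) hj
    obtain ⟨d, hd⟩ := Nat.exists_eq_add_of_le' h2
    rw [hd, pow_add, Module.End.mul_apply, hn j hj, map_zero]
  obtain ⟨e, he1, he2⟩ := idem lam hlam s N i
  have h3 : aeval τ e (∑ j ∈ s, v j) = v i := by
    rw [map_sum, Finset.sum_eq_single i]
    · have h4 := aeval_kill (hN2 i hi) he1
      rw [map_sub, map_one, LinearMap.sub_apply, Module.End.one_apply, sub_eq_zero] at h4
      exact h4.symm
    · intro j hj hji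
      exact aeval_kill (hN2 j hj) (he2 j hj hji)
    · intro h
      exact absurd hi h
  rw [← h3]
  exact aeval_mem hI e h

/-- operators with given scalars on the generalized eigenspaces -/
theorem exists_poly [IsAlgClosed k] [FiniteDimensional k V] (τ : End k V) (φ : k → k) :
    ∃ p : k[X], ∀ a, ∀ v ∈ τ.maxGenEigenspace a, aeval τ p v = φ a • v := by
  classical
  have hfin : {a | τ.maxGenEigenspace a ≠ ⊥}.Finite := by
    refine (Module.End.finite_hasEigenvalue τ).subset fun β hβ => ?_
    by_contra h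
    apply hβ
    rw [eq_bot_iff]
    intro v hv
    by_contra hv0
    apply h
    have h1 : τ.HasUnifEigenvalue β ⊤ := by
      intro h2
      apply hv0
      have h3 : v ∈ τ.genEigenspace β ⊤ := hv
      rw [h2] at h3
      exact h3
    exact h1.lt zero_lt_one
  choose e he1 he2 using fun a : k => idem (fun x : k => x) Function.injective_id hfin.toFinset (finrank k V) a
  refine ⟨∑ a ∈ hfin.toFinset, C (φ a) * e a, fun a v hv => ?_⟩
  have hN : ((τ - algebraMap k (End k V) a) ^ (finrank k V)) v = 0 := by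
    rw [Module.End.maxGenEigenspace_eq_genEigenspace_finrank, Module.End.mem_genEigenspace_nat] at hv
    exact hv
  by_cases ha : τ.maxGenEigenspace a = ⊥
  · rw [ha, Submodule.mem_bot] at hv
    rw [hv, map_zero, smul_zero]
  rw [map_sum, LinearMap.sum_apply, Finset.sum_eq_single a]
  · have h4 := aeval_kill hN (he1 a)
    rw [map_sub, map_one, LinearMap.sub_apply, Module.End.one_apply, sub_eq_zero] at h4
    rw [map_mul, aeval_C, Module.End.mul_apply, ← h4, Module.algebraMap_end_apply]
  · intro b hb hba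
    rw [map_mul, Module.End.mul_apply, aeval_kill hN (he2 b a (hfin.mem_toFinset.2 ha) (Ne.symm hba)), map_zero]
  · intro h
    exact absurd (hfin.mem_toFinset.2 ha) h

end idem

section alg

variable {k Q : Type*} [Field k] [CommRing Q] [Algebra k Q]

theorem sub_ap (τ : End k Q) (c : k) (x : Q) :
    (τ - algebraMap k (End k Q) c) x = τ x - algebraMap k Q c * x := by
  rw [LinearMap.sub_apply, Module.algebraMap_end_apply, Algebra.smul_def]

theorem mul_gen_aut {τ : End k Q} (hτ : ∀ f g, τ (f * g) = τ f * τ g) {a b : k} {f g : Q}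
    (hf : f ∈ τ.maxGenEigenspace a) (hg : g ∈ τ.maxGenEigenspace b) : f * g ∈ τ.maxGenEigenspace (a * b) := by
  obtain ⟨N, hN⟩ := mem_gen.1 hf
  obtain ⟨M, hM⟩ := mem_gen.1 hg
  have key : ∀ n N M : ℕ, N + M = n → ∀ f g : Q, ((τ - algebraMap k (End k Q) a) ^ N) f = 0 →
      ((τ - algebraMap k (End k Q) b) ^ M) g = 0 → ((τ - algebraMap k (End k Q) (a * b)) ^ n) (f * g) = 0 := by
    intro n
    induction n with
    | zero =>
      intro N M h f g hf _
      have : N = 0 := by omega
      rw [this, pow_zero, Module.End.one_apply] at hf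
      rw [hf, zero_mul, map_zero]
    | succ n ih =>
      intro N M h f g hf hg
      rcases Nat.eq_zero_or_pos N with h0 | h0
      · rw [h0, pow_zero, Module.End.one_apply] at hf
        rw [hf, zero_mul, map_zero]
      rcases Nat.eq_zero_or_pos M with h1 | h1
      · rw [h1, pow_zero, Module.End.one_apply] at hg
        rw [hg, mul_zero, map_zero]
      have e : (τ - algebraMap k (End k Q) (a * b)) (f * g) =
          ((τ - algebraMap k (End k Q) a) f) * τ g + (a • f) * ((τ - algebraMap k (End k Q) b) g) := by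
        rw [sub_ap, sub_ap, sub_ap, hτ, map_mul, Algebra.smul_def]
        ring
      obtain ⟨N', rfl⟩ : ∃ N', N = N' + 1 := ⟨N - 1, by omega⟩
      obtain ⟨M', rfl⟩ : ∃ M', M = M' + 1 := ⟨M - 1, by omega⟩
      rw [pow_succ, Module.End.mul_apply, e, map_add]
      rw [ih N' (M' + 1) (by omega) _ _ (by rw [← Module.End.mul_apply, ← pow_succ]; exact hf) ?_,
        ih (N' + 1) M' (by omega) _ _ (by rw [map_smul, hf, smul_zero])
          (by rw [← Module.End.mul_apply, ← pow_succ]; exact hg), add_zero]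
      have hc : Commute ((τ - algebraMap k (End k Q) b) ^ (M' + 1)) τ :=
        (((Commute.refl τ).sub_left (Algebra.commutes b τ)).pow_left _)
      have := congrArg (fun F : End k Q => F g) hc.eq
      simp only [Module.End.mul_apply] at this
      rw [this, hg, map_zero]
  exact mem_gen.2 ⟨N + M, key _ N M rfl f g hN hM⟩

theorem mul_gen_der {τ : End k Q} (hτ : ∀ f g, τ (f * g) = τ f * g + f * τ g) {a b : k} {f g : Q}
    (hf : f ∈ τ.maxGenEigenspace a) (hg : g ∈ τ.maxGenEigenspace b) : f * g ∈ τ.maxGenEigenspace (a + b) := by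
  obtain ⟨N, hN⟩ := mem_gen.1 hf
  obtain ⟨M, hM⟩ := mem_gen.1 hg
  have key : ∀ n N M : ℕ, N + M = n → ∀ f g : Q, ((τ - algebraMap k (End k Q) a) ^ N) f = 0 →
      ((τ - algebraMap k (End k Q) b) ^ M) g = 0 → ((τ - algebraMap k (End k Q) (a + b)) ^ n) (f * g) = 0 := by
    intro n
    induction n with
    | zero =>
      intro N M h f g hf _
      have : N = 0 := by omega
      rw [this, pow_zero, Module.End.one_apply] at hf
      rw [hf, zero_mul, map_zero]
    | succ n ih =>
      intro N M h f g hf hg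
      rcases Nat.eq_zero_or_pos N with h0 | h0
      · rw [h0, pow_zero, Module.End.one_apply] at hf
        rw [hf, zero_mul, map_zero]
      rcases Nat.eq_zero_or_pos M with h1 | h1
      · rw [h1, pow_zero, Module.End.one_apply] at hg
        rw [hg, mul_zero, map_zero]
      have e : (τ - algebraMap k (End k Q) (a + b)) (f * g) =
          ((τ - algebraMap k (End k Q) a) f) * g + f * ((τ - algebraMap k (End k Q) b) g) := by
        rw [sub_ap, sub_ap, sub_ap, hτ, map_add]
        ring
      obtain ⟨N', rfl⟩ : ∃ N', N = N' + 1 := ⟨N - 1, by omega⟩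
      obtain ⟨M', rfl⟩ : ∃ M', M = M' + 1 := ⟨M - 1, by omega⟩
      rw [pow_succ, Module.End.mul_apply, e, map_add]
      rw [ih N' (M' + 1) (by omega) _ _ (by rw [← Module.End.mul_apply, ← pow_succ]; exact hf) hg,
        ih (N' + 1) M' (by omega) _ _ hf (by rw [← Module.End.mul_apply, ← pow_succ]; exact hg), add_zero]
  exact mem_gen.2 ⟨N + M, key _ N M rfl f g hN hM⟩

/-- **Stable subspaces**: `θ` is a scalar on generalized eigenvectors of `τ`. -/
theorem comp_mem (τ θ : End k Q) {ι : Type*} (lam mu : ι → k) (hlam : Function.Injective lam) (op : ι → ι → ι) (e : ι)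
    (h1 : (1 : Q) ∈ τ.maxGenEigenspace (lam e) ⊓ θ.eigenspace (mu e))
    (hmul : ∀ i j f g, f ∈ τ.maxGenEigenspace (lam i) ⊓ θ.eigenspace (mu i) →
      g ∈ τ.maxGenEigenspace (lam j) ⊓ θ.eigenspace (mu j) →
      f * g ∈ τ.maxGenEigenspace (lam (op i j)) ⊓ θ.eigenspace (mu (op i j)))
    (gens : Set Q) (hgen : Algebra.adjoin k gens = ⊤)
    (hg : ∀ x ∈ gens, x ∈ ⨆ i, τ.maxGenEigenspace (lam i) ⊓ θ.eigenspace (mu i)) {I : Submodule k Q}
    (hI : ∀ x ∈ I, τ x ∈ I) : ∀ x ∈ I, θ x ∈ I := by
  classical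
  set S : Submodule k Q := ⨆ i, τ.maxGenEigenspace (lam i) ⊓ θ.eigenspace (mu i) with hS
  have hmulS : ∀ f ∈ S, ∀ g ∈ S, f * g ∈ S := by
    intro f hf g hg'
    rw [hS] at hf hg'
    refine Submodule.iSup_induction (motive := fun f => f * g ∈ S) _ hf (fun i x hx => ?_) (by rw [zero_mul]; exact zero_mem _)
      fun x y hx hy => by rw [add_mul]; exact add_mem hx hy
    refine Submodule.iSup_induction (motive := fun g => x * g ∈ S) _ hg' (fun j y hy => ?_) (by rw [mul_zero]; exact zero_mem _)
      fun y z hy hz => by rw [mul_add]; exact add_mem hy hz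
    exact Submodule.mem_iSup_of_mem (op i j) (hmul i j x y hx hy)
  have h1S : (1 : Q) ∈ S := Submodule.mem_iSup_of_mem e h1
  have hall : ∀ x : Q, x ∈ S := by
    intro x
    have hx : x ∈ Algebra.adjoin k gens := by rw [hgen]; trivial
    refine Algebra.adjoin_induction (p := fun x _ => x ∈ S) (fun x hx => hg x hx) (fun r => ?_)
      (fun x y _ _ hx hy => S.add_mem hx hy) (fun x y _ _ hx hy => hmulS x hx y hy) hx
    rw [Algebra.algebraMap_eq_smul_one]
    exact S.smul_mem _ h1S
  intro x hx
  obtain ⟨f, hf, hsum⟩ := (Submodule.mem_iSup_iff_exists_finsupp _ _).1 (hall x)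
  have h2 : ∀ i ∈ f.support, f i ∈ I := by
    refine split τ lam hlam f.support f (fun i _ => (hf i).1) hI ?_
    have : ∑ i ∈ f.support, f i = x := hsum
    rw [this]
    exact hx
  have h3 : θ x = ∑ i ∈ f.support, mu i • f i := by
    have : x = ∑ i ∈ f.support, f i := hsum.symm
    rw [this, map_sum]
    exact Finset.sum_congr rfl fun i _ => Module.End.mem_eigenspace_iff.1 (hf i).2
  rw [h3]
  exact I.sum_mem fun i hi => I.smul_mem _ (h2 i hi)

end alg

section nil

variable {K : Type*} [Field K] [CharZero K] [IsAlgClosed K] {V : Type*} [AddCommGroup V] [Module K V]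
  [FiniteDimensional K V]

theorem finite_gen (x : End K V) : {β | x.maxGenEigenspace β ≠ ⊥}.Finite := by
  refine (Module.End.finite_hasEigenvalue x).subset fun β hβ => ?_
  by_contra h
  apply hβ
  rw [eq_bot_iff]
  intro v hv
  by_contra hv0
  apply h
  have h1 : x.HasUnifEigenvalue β ⊤ := by
    intro h2
    apply hv0
    have h3 : v ∈ x.genEigenspace β ⊤ := hv
    rw [h2] at h3
    exact h3
  exact h1.lt zero_lt_one

theorem gen_stable (x : End K V) (β : K) {v : V} (hv : v ∈ x.maxGenEigenspace β) : x v ∈ x.maxGenEigenspace β :=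
  Module.End.mapsTo_maxGenEigenspace_of_comm (Commute.refl x) β hv

/-- `s` is the scalar `φ β` on the generalized eigenspace of `x` for `β` (as in the files of helper853) -/
def IsRepl (φ : K → K) (x s : End K V) : Prop :=
  ∀ β, ∀ v ∈ x.maxGenEigenspace β, s v = φ β • v

theorem trace_repl {φ : K → K} {x s : End K V} (hs : IsRepl φ x s) :
    LinearMap.trace K V (x * s) =
      ∑ β ∈ (finite_gen x).toFinset, φ β * (β * finrank K (x.maxGenEigenspace β)) := by
  classical
  have hint : DirectSum.IsInternal fun β => x.maxGenEigenspace β := by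
    rw [DirectSum.isInternal_submodule_iff_iSupIndep_and_iSup_eq_top]
    exact ⟨x.independent_maxGenEigenspace, Module.End.iSup_maxGenEigenspace_eq_top x⟩
  have hm : ∀ β, Set.MapsTo (x * s : End K V) (x.maxGenEigenspace β) (x.maxGenEigenspace β) := by
    intro β v hv
    change x (s v) ∈ x.maxGenEigenspace β
    rw [hs β v hv, map_smul]
    exact Submodule.smul_mem _ _ (gen_stable x β hv)
  rw [LinearMap.trace_eq_sum_trace_restrict' hint (finite_gen x) hm]
  refine Finset.sum_congr rfl fun β _ => ?_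
  have hx : ∀ v ∈ x.maxGenEigenspace β, x v ∈ x.maxGenEigenspace β := fun v hv => gen_stable x β hv
  have h1 : (x * s : End K V).restrict (hm β) = φ β • x.restrict hx := by
    refine LinearMap.ext fun v => Subtype.ext ?_
    change x (s v) = φ β • x v
    rw [hs β v v.2, map_smul]
  rw [h1, map_smul, smul_eq_mul]
  congr 1
  have h2 := LinearMap.trace_comp_eq_mul_of_commute_of_isNilpotent (R := K)
    (M := x.maxGenEigenspace β) (f := LinearMap.id) (g := x.restrict hx) β
    (LinearMap.ext fun v => rfl) ?_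
  · rw [LinearMap.id_comp, LinearMap.trace_id] at h2
    exact h2
  · exact Module.End.isNilpotent_restrict_maxGenEigenspace_sub_algebraMap x β

/-- an endomorphism without nonzero eigenvalues is nilpotent -/
theorem nil_of_gen {x : End K V} (key : ∀ β, x.maxGenEigenspace β ≠ ⊥ → β = 0) : IsNilpotent x := by
  have h1 : x.maxGenEigenspace 0 = ⊤ := by
    rw [eq_top_iff, ← Module.End.iSup_maxGenEigenspace_eq_top x]
    refine iSup_le fun β => ?_
    by_cases hβ : x.maxGenEigenspace β = ⊥
    · rw [hβ]; exact bot_le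
    · rw [key β hβ]
  refine ⟨finrank K V, LinearMap.ext fun v => ?_⟩
  have h2 : v ∈ x.maxGenEigenspace 0 := by rw [h1]; trivial
  rw [Module.End.maxGenEigenspace_eq_genEigenspace_finrank, Module.End.mem_genEigenspace_nat,
    zero_smul, sub_zero] at h2
  exact h2

theorem exists_dual {β : K} (h0 : β ≠ 0) : ∃ f : K →ₗ[ℚ] ℚ, f β ≠ 0 := by
  by_contra hno
  push Not at hno
  exact h0 ((Module.forall_dual_apply_eq_zero_iff ℚ β).1 hno)

theorem nil_of_repl {x : End K V}
    (h : ∀ (f : K →ₗ[ℚ] ℚ) (s : End K V), IsRepl (fun a => algebraMap ℚ K (f a)) x s →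
      LinearMap.trace K V (x * s) = 0) : IsNilpotent x := by
  classical
  refine nil_of_gen fun β hβ => ?_
  by_contra h0
  obtain ⟨f, hf⟩ := exists_dual h0
  obtain ⟨p, hp⟩ := exists_poly x (fun a => algebraMap ℚ K (f a))
  have h1 := h f (aeval x p) hp
  rw [trace_repl hp] at h1
  have h2 := congrArg f h1
  rw [map_sum, map_zero] at h2
  have h3 : ∀ a, f (algebraMap ℚ K (f a) * (a * (finrank K (x.maxGenEigenspace a) : K))) =
      f a ^ 2 * (finrank K (x.maxGenEigenspace a) : ℚ) := by
    intro a
    have h4 : algebraMap ℚ K (f a) * (a * (finrank K (x.maxGenEigenspace a) : K)) =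
        (f a * (finrank K (x.maxGenEigenspace a) : ℚ)) • a := by
      rw [Algebra.smul_def, map_mul, map_natCast]
      ring
    rw [h4, map_smul, smul_eq_mul]
    ring
  rw [Finset.sum_congr rfl fun a _ => h3 a, Finset.sum_eq_zero_iff_of_nonneg
    (fun a _ => by positivity)] at h2
  have h5 := h2 β ((finite_gen x).mem_toFinset.2 hβ)
  rcases mul_eq_zero.1 h5 with h6 | h6
  · exact hf (pow_eq_zero_iff two_ne_zero |>.1 h6)
  · have h7 : finrank K (x.maxGenEigenspace β) = 0 := by exact_mod_cast h6
    exact hβ (Submodule.finrank_eq_zero.1 h7)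

end nil

section engel

variable {K : Type*} [Field K] {V : Type*} [AddCommGroup V] [Module K V] [FiniteDimensional K V]

attribute [local instance 100] LieRing.ofAssociativeRing

/-- The theorem of Engel (as in the files of helper853). -/
theorem engel {R : Submodule K (End K V)} (hR : ∀ X ∈ R, ∀ Y ∈ R, X * Y - Y * X ∈ R)
    (hnil : ∀ X ∈ R, IsNilpotent X)
    {W : Submodule K V} (hW : ∀ X ∈ R, ∀ v ∈ W, X v ∈ W) (hW0 : W ≠ ⊥) :
    ∃ v ∈ W, v ≠ 0 ∧ ∀ X ∈ R, X v = 0 := by
  let R' : LieSubalgebra K (End K V) := { R with lie_mem' := fun {X Y} hX hY => hR X hX Y hY }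
  let W' : LieSubmodule K R' V := { W with lie_mem := fun {X v} hv => hW X.1 X.2 v hv }
  have h1 : LieModule.IsNilpotent R' W' := by
    rw [LieModule.isNilpotent_iff_forall' (R := K)]
    intro X
    obtain ⟨n, hn⟩ := hnil X.1 X.2
    refine ⟨n, ?_⟩
    have h2 : ∀ (n : ℕ) (v : W'), (((LieModule.toEnd K R' W' X) ^ n) v : V) = (X.1 ^ n) v := by
      intro n
      induction n with
      | zero => intro v; rfl
      | succ n ih =>
        intro v
        rw [pow_succ, pow_succ, Module.End.mul_apply, Module.End.mul_apply, ih]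
        rfl
    refine LinearMap.ext fun v => Subtype.ext ?_
    rw [h2, hn]
    rfl
  have h3 : Nontrivial W' := by
    obtain ⟨v, hv, hv0⟩ := Submodule.exists_mem_ne_zero_of_ne_bot hW0
    refine ⟨⟨v, hv⟩, 0, fun h => hv0 ?_⟩
    exact congrArg (fun w : W' => (w : V)) h
  have h5 : Nontrivial (LieModule.maxTrivSubmodule K R' W') :=
    LieModule.nontrivial_max_triv_of_isNilpotent K R' W'
  obtain ⟨v, hv⟩ := exists_ne (0 : LieModule.maxTrivSubmodule K R' W')
  refine ⟨v.1.1, v.1.2, fun h => hv (Subtype.ext (Subtype.ext h)), fun X hX => ?_⟩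
  have h4 := v.2
  rw [LieModule.mem_maxTrivSubmodule] at h4
  exact congrArg Subtype.val (h4 ⟨X, hX⟩)

end engel

/-- A number which is not a root of unity is detected by an additive function (as in the files of helper853). -/
theorem exists_theta {K : Type*} [Field K] [CharZero K] (u : Kˣ) (h : ∀ m : ℕ, 0 < m → u ^ m ≠ 1) :
    ∃ θ : Additive Kˣ →+ K, θ (Additive.ofMul u) ≠ 0 := by
  let f : ℤ →+ Additive Kˣ := zmultiplesHom _ (Additive.ofMul u)
  have hf : Function.Injective f := by
    rw [injective_iff_map_eq_zero]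
    intro a ha
    by_contra hne
    have h1 : u ^ a = 1 := by
      have h2 : a • (Additive.ofMul u) = 0 := ha
      exact congrArg Additive.toMul h2
    have h2 : u ^ a.natAbs = 1 := by
      rcases Int.natAbs_eq a with h3 | h3
      · rw [h3, zpow_natCast] at h1; exact h1
      · rw [h3, zpow_neg, zpow_natCast, inv_eq_one] at h1; exact h1
    exact h a.natAbs (Int.natAbs_pos.2 hne) h2
  let g : ℤ →+ K := Int.castAddHom K
  obtain ⟨θ, hθ⟩ := (Module.Baer.of_divisible K).extension_property_addMonoidHom f hf g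
  refine ⟨θ, ?_⟩
  have h1 : θ (f 1) = g 1 := DFunLike.congr_fun hθ 1
  have h2 : f 1 = Additive.ofMul u := by
    change (1 : ℤ) • (Additive.ofMul u) = Additive.ofMul u
    rw [one_smul]
  rw [h2] at h1
  rw [h1]
  simp [g]

end Pool.Agent.H499.ES
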