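import Mathlib

/-! Families of multisets which are the eigenvalues of a continuous representation. -/

set_option autoImplicit false
set_option linter.all false

namespace Pool.Agent.H499.ES

open Matrix Polynomial

section roots

variable {k : Type*} [Field k] [IsAlgClosed k] {ι : Type*} [Fintype ι] [DecidableEq ι]

theorem roots_smul (c : kˣ) (M : Matrix ι ι k) :
    ((c : k) • M).charpoly.roots = M.charpoly.roots.map fun a => (c : k) * a := by
  have hc : (c : k) ≠ 0 := c.ne_zero
  have h1 : ((c : k) • M).charpoly = M.charpoly.scaleRoots (c : k) := by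
    haveI : Infinite k := IsAlgClosed.instInfinite
    refine Polynomial.funext fun t => ?_
    have h1 : t = t / (c : k) * (c : k) := by rw [div_mul_cancel₀ _ hc]
    have h2 : (scalar ι) t - (c : k) • M = (c : k) • ((scalar ι) (t / (c : k)) - M) := by
      rw [smul_sub]
      congr 1
      ext i j
      by_cases hij : i = j
      · subst hij
        simp only [scalar_apply, diagonal_apply_eq, Matrix.smul_apply, smul_eq_mul]
        rw [mul_div_cancel₀ _ hc]
      · simp only [scalar_apply, diagonal_apply_ne _ hij, Matrix.smul_apply, smul_zero]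
    rw [eval_charpoly, h2, det_smul, ← eval_charpoly]
    conv_rhs => rw [h1, mul_comm (t / (c : k)) (c : k), scaleRoots_eval_mul]
    rw [charpoly_natDegree_eq_dim]
  rw [h1, roots_scaleRoots _ c.isUnit]

theorem card_roots_charpoly (M : Matrix ι ι k) : Multiset.card M.charpoly.roots = Fintype.card ι := by
  rw [← (IsAlgClosed.splits M.charpoly).natDegree_eq_card_roots, Matrix.charpoly_natDegree_eq_dim]

theorem zero_notMem_roots (u : (Matrix ι ι k)ˣ) : (0 : k) ∉ (u : Matrix ι ι k).charpoly.roots := by
  intro h
  have h1 := Multiset.prod_eq_zero h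
  rw [← Matrix.det_eq_prod_roots_charpoly] at h1
  have h2 : IsUnit (u : Matrix ι ι k).det := (Matrix.isUnit_iff_isUnit_det _).1 u.isUnit
  exact h2.ne_zero h1

end roots

section gn

variable {G : Type*} [Group G] [TopologicalSpace G] {k : Type*} [Field k] [TopologicalSpace k]

/-- `M g` are the eigenvalues of a continuous representation, which is trivial on `I` -/
def Gn (I : Set G) (M : G → Multiset k) : Prop :=
  ∃ (ι : Type) (_ : Fintype ι) (_ : DecidableEq ι) (ρ : G →* Matrix ι ι k), Continuous ρ ∧
    (∀ g ∈ I, ρ g = 1) ∧ ∀ g, (ρ g).charpoly.roots = M g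

theorem Gn.zero (I : Set G) : Gn I (fun _ => (0 : Multiset k)) := by
  refine ⟨Empty, inferInstance, inferInstance, 1, continuous_const, fun g _ => rfl, fun g => ?_⟩
  have h1 : ((1 : G →* Matrix Empty Empty k) g).charpoly = 1 := by
    rw [Matrix.charpoly, Matrix.det_isEmpty]
  rw [h1, Polynomial.roots_one]
  rfl

theorem Gn.congr {I : Set G} {M N : G → Multiset k} (h : Gn I M) (e : ∀ g, M g = N g) : Gn I N := by
  have : M = N := funext e
  rwa [← this]

theorem Gn.add {I : Set G} {M N : G → Multiset k} (hM : Gn I M) (hN : Gn I N) : Gn I (fun g => M g + N g) := by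
  obtain ⟨ι, h1, h2, ρ, h3, h4, h5⟩ := hM
  obtain ⟨ι', h1', h2', ρ', h3', h4', h5'⟩ := hN
  refine ⟨ι ⊕ ι', inferInstance, inferInstance,
    { toFun := fun g => Matrix.fromBlocks (ρ g) 0 0 (ρ' g)
      map_one' := by rw [map_one, map_one, Matrix.fromBlocks_one]
      map_mul' := fun g h => by
        rw [Matrix.fromBlocks_multiply, map_mul, map_mul]
        simp only [Matrix.zero_mul, Matrix.mul_zero, add_zero, zero_add] }, ?_, ?_, ?_⟩
  · exact Continuous.matrix_fromBlocks h3 continuous_const continuous_const h3'
  · intro g hg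
    show Matrix.fromBlocks (ρ g) 0 0 (ρ' g) = 1
    rw [h4 g hg, h4' g hg, Matrix.fromBlocks_one]
  · intro g
    show (Matrix.fromBlocks (ρ g) 0 0 (ρ' g)).charpoly.roots = _
    rw [Matrix.charpoly_fromBlocks_zero₁₂, Polynomial.roots_mul (((Matrix.charpoly_monic _).mul
      (Matrix.charpoly_monic _)).ne_zero), h5, h5']

theorem Gn.sum {I : Set G} {α : Type*} (s : Finset α) {M : α → G → Multiset k} (h : ∀ a ∈ s, Gn I (M a)) :
    Gn I (fun g => ∑ a ∈ s, M a g) := by
  classical
  induction s using Finset.induction_on with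
  | empty => exact (Gn.zero I).congr fun g => by rw [Finset.sum_empty]
  | insert a s ha ih =>
    exact ((h a (Finset.mem_insert_self a s)).add (ih fun b hb => h b (Finset.mem_insert_of_mem hb))).congr
      fun g => by rw [Finset.sum_insert ha]

theorem Gn.twist [IsAlgClosed k] [IsTopologicalRing k] {I : Set G} {M : G → Multiset k} (h : Gn I M) (χ : G →* kˣ)
    (hχ : Continuous fun g => (χ g : k)) (hI : ∀ g ∈ I, χ g = 1) : Gn I (fun g => (M g).map fun a => (χ g : k) * a) := by
  obtain ⟨ι, h1, h2, ρ, h3, h4, h5⟩ := h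
  refine ⟨ι, inferInstance, inferInstance,
    { toFun := fun g => (χ g : k) • ρ g
      map_one' := by rw [map_one, map_one, Units.val_one, one_smul]
      map_mul' := fun g h => by rw [map_mul, map_mul, Units.val_mul, smul_mul_smul_comm] }, ?_, ?_, ?_⟩
  · exact hχ.smul h3
  · intro g hg
    show (χ g : k) • ρ g = 1
    rw [h4 g hg, hI g hg, Units.val_one, one_smul]
  · intro g
    show ((χ g : k) • ρ g).charpoly.roots = _
    rw [roots_smul, h5]

/-- characters from determinants -/
theorem Gn.det [IsAlgClosed k] [IsTopologicalRing k] [ContinuousInv G] {I : Set G} {M : G → Multiset k} {c : G → k}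
    (h : Gn I M) (h' : Gn I (fun g => M g + {c g})) : Gn I (fun g => {c g}) := by
  obtain ⟨ι, h1, h2, ρ, h3, h4, h5⟩ := h
  obtain ⟨ι', h1', h2', ρ', h3', h4', h5'⟩ := h'
  have hc : ∀ g, c g = (ρ' g).det * (ρ g⁻¹).det := by
    intro g
    have e1 : (ρ g).det * (ρ g⁻¹).det = 1 := by rw [← Matrix.det_mul, ← map_mul, mul_inv_cancel, map_one, Matrix.det_one]
    rw [Matrix.det_eq_prod_roots_charpoly (ρ' g), h5', Multiset.prod_add, Multiset.prod_singleton, ← h5,
      ← Matrix.det_eq_prod_roots_charpoly (ρ g), mul_right_comm, e1, one_mul]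
  refine ⟨Unit, inferInstance, inferInstance,
    { toFun := fun g => Matrix.diagonal fun _ => (ρ' g).det * (ρ g⁻¹).det
      map_one' := by
        rw [inv_one, map_one, map_one, Matrix.det_one, Matrix.det_one, mul_one]
        exact Matrix.diagonal_one
      map_mul' := fun g h => by
        rw [Matrix.diagonal_mul_diagonal, _root_.mul_inv_rev, map_mul, map_mul, Matrix.det_mul, Matrix.det_mul]
        congr 1
        funext _
        ring }, ?_, ?_, ?_⟩
  · refine Continuous.matrix_diagonal (continuous_pi fun _ => ?_)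
    exact (h3'.matrix_det).mul ((h3.comp continuous_inv).matrix_det)
  · intro g hg
    show (Matrix.diagonal fun _ => (ρ' g).det * (ρ g⁻¹).det : Matrix Unit Unit k) = 1
    have e1 : ρ g⁻¹ = 1 := by
      have e2 : ρ g * ρ g⁻¹ = 1 := by rw [← map_mul, mul_inv_cancel, map_one]
      rwa [h4 g hg, one_mul] at e2
    rw [h4' g hg, e1, Matrix.det_one, Matrix.det_one, mul_one]
    exact Matrix.diagonal_one
  · intro g
    show (Matrix.diagonal fun _ => (ρ' g).det * (ρ g⁻¹).det : Matrix Unit Unit k).charpoly.roots = _
    rw [Matrix.charpoly_diagonal, ← hc g, Fintype.prod_unique, Polynomial.roots_X_sub_C]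

theorem one_block {m : ℕ} (c : Fin m → ℤ) (j : ℤ) : (1 : Matrix (Fin m) (Fin m) k).toSquareBlock c j = 1 := by
  ext a b
  rw [Matrix.toSquareBlock_def, Matrix.of_apply]
  by_cases h : a = b
  · rw [h, Matrix.one_apply_eq, Matrix.one_apply_eq]
  · rw [Matrix.one_apply_ne h, Matrix.one_apply_ne fun h' => h (Subtype.ext h')]

/-- a representation with a grading: the pieces -/
theorem Gn.block [IsTopologicalRing k] {I : Set G} {m : ℕ} (ρ : G →* Matrix (Fin m) (Fin m) k)
    (hρ : Continuous ρ) (hI : ∀ g ∈ I, ρ g = 1) (c : Fin m → ℤ) (hc : ∀ g a b, c a ≠ c b → ρ g a b = 0) (j : ℤ) :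
    Gn I (fun g => ((ρ g).toSquareBlock c j).charpoly.roots) := by
  refine ⟨{a // c a = j}, inferInstance, inferInstance,
    { toFun := fun g => (ρ g).toSquareBlock c j
      map_one' := by
        rw [map_one]
        exact one_block c j
      map_mul' := fun g h => by
        ext a b
        rw [Matrix.toSquareBlock_def, Matrix.of_apply, map_mul, Matrix.mul_apply, Matrix.mul_apply]
        rw [← Finset.sum_subset (Finset.subset_univ (Finset.univ.filter fun x => c x = j)) fun x _ hx => by
          rw [Finset.mem_filter, not_and] at hx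
          have hx' := hx (Finset.mem_univ _)
          rw [hc g a.1 x (by rw [a.2]; exact fun h => hx' h.symm), zero_mul]]
        rw [Finset.sum_subtype (Finset.univ.filter fun x => c x = j) (p := fun x => c x = j) (fun x => by simp)]
        rfl }, ?_, ?_, fun g => rfl⟩
  · refine continuous_matrix fun a b => ?_
    exact (continuous_id.matrix_elem a.1 b.1).comp hρ
  · intro g hg
    show (ρ g).toSquareBlock c j = 1
    rw [hI g hg]
    exact one_block c j

end gn

end Pool.Agent.H499.ES
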