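import Pool.Agent.H499.ES.Center

/-! A central element with integral eigenvalues which separates characters. -/

set_option autoImplicit false
set_option linter.all false

namespace Pool.Agent.H499.ES

open Module Matrix MvPolynomial

section grd

variable {k : Type*} {ι : Type*} [Field k] [Fintype ι] [DecidableEq ι] {G : Type*} [Group G]
  [IsAlgClosed k] [CharZero k]

/-- central elements of the Lie algebra -/
def cent (V : G →* Matrix ι ι k) : Submodule k (Matrix ι ι k) where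
  carrier := {z | z ∈ lie V ∧ ∀ g, z * V g = V g * z}
  add_mem' := fun {a b} ha hb => ⟨(lie V).add_mem ha.1 hb.1, fun g => by rw [add_mul, mul_add, ha.2, hb.2]⟩
  zero_mem' := ⟨(lie V).zero_mem, fun g => by rw [zero_mul, mul_zero]⟩
  smul_mem' := fun c a ha => ⟨(lie V).smul_mem c ha.1, fun g => by rw [smul_mul_assoc, mul_smul_comm, ha.2]⟩

theorem exists_combined {V : G →* Matrix ι ι k} {Pr : Set (Matrix ι ι k)} (hss : SS V Pr)
    (hPr : ∀ p ∈ Pr, ∀ g, p * V g = V g * p) {κ : Type*} [Finite κ] {p : κ → ι} (hp : ∀ i, IsChar V (p i))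
    (hpq : ∀ i j, i ≠ j → ∃ g, ∀ n : ℕ, 0 < n → (V g (p i) (p i)) ^ n ≠ (V g (p j) (p j)) ^ n) :
    ∃ z ∈ cent V, ∀ i j, i ≠ j → z (p i) (p i) - z (p j) (p j) ≠ 0 := by
  obtain ⟨z, hz, h⟩ := Module.Dual.exists_forall_mem_ne_zero_of_forall_exists (cent V)
    (fun q : {q : κ × κ // q.1 ≠ q.2} => (Tf (p q.1.1) (p q.1.2) : Matrix ι ι k →ₗ[k] k)) (fun q => by
      obtain ⟨z, hz, hz1, hz2⟩ := exists_central hss hPr (hp q.1.1) (hp q.1.2) (hpq _ _ q.2)
      exact ⟨z, ⟨hz, hz1⟩, sub_ne_zero.2 hz2⟩)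
  exact ⟨z, hz, fun i j hij => h ⟨(i, j), hij⟩⟩

/-- **The grading.** -/
theorem exists_grading {V : G →* Matrix ι ι k} {Pr : Set (Matrix ι ι k)} (hss : SS V Pr)
    (hPr : ∀ p ∈ Pr, ∀ g, p * V g = V g * p) {κ : Type*} [Finite κ] {p : κ → ι} (hp : ∀ i, IsChar V (p i))
    (hpq : ∀ i j, i ≠ j → ∃ g, ∀ n : ℕ, 0 < n → (V g (p i) (p i)) ^ n ≠ (V g (p j) (p j)) ^ n) :
    ∃ w ∈ lie V, (∀ g, V g * w = w * V g) ∧ (⨆ c : ℤ, (tl w).eigenspace (c : k)) = ⊤ ∧
      ∃ e : κ → ℤ, Function.Injective e ∧ ∀ i, w (p i) (p i) = e i := by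
  classical
  obtain ⟨z, ⟨hz, hzc⟩, hz2⟩ := exists_combined hss hPr hp hpq
  obtain ⟨f, hf⟩ := Module.exists_dual_forall_apply_ne_zero (K := ℚ) (M := k)
    (fun q : {q : κ × κ // q.1 ≠ q.2} => z (p q.1.1) (p q.1.1) - z (p q.1.2) (p q.1.2)) (fun q => hz2 _ _ q.2)
  have hfin : {a | (tl z).maxGenEigenspace a ≠ ⊥}.Finite :=
    WellFoundedGT.finite_ne_bot_of_iSupIndep (Module.End.independent_maxGenEigenspace (tl z))
  obtain ⟨D, hD⟩ := IsLocalization.exist_integer_multiples_of_finset (nonZeroDivisors ℤ)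
    (hfin.toFinset.image fun a => f a)
  have hD0 : ((D : ℤ) : ℚ) ≠ 0 := by exact_mod_cast nonZeroDivisors.ne_zero D.2
  have hint : ∀ a, (tl z).maxGenEigenspace a ≠ ⊥ → ∃ c : ℤ, (c : ℚ) = (D : ℤ) * f a := by
    intro a ha
    obtain ⟨c, hc⟩ := hD (f a) (Finset.mem_image_of_mem _ (hfin.mem_toFinset.2 ha))
    refine ⟨c, ?_⟩
    rw [zsmul_eq_mul] at hc
    exact hc
  let φ : k →+ k := ((algebraMap ℚ k : ℚ →+ k)).comp ((AddMonoidHom.mulLeft (((D : ℤ) : ℚ))).comp f.toAddMonoidHom)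
  have hφ : ∀ a, φ a = algebraMap ℚ k (((D : ℤ) : ℚ) * f a) := fun a => rfl
  obtain ⟨w, hw, hw1, hw2⟩ := exists_repl V hz φ
  have hcoord : ∀ i, ∃ c : ℤ, (c : ℚ) = (D : ℤ) * f (z (p i) (p i)) := by
    intro i
    refine hint _ fun hbot => ?_
    have h1 := coord_mem (Y := z) (p := p i) fun a ha => (lie_char (hp i) hz a ha).2
    rw [hbot, Submodule.mem_bot] at h1
    have h2 := congrFun h1 (p i)
    rw [Pi.single_eq_same] at h2
    exact one_ne_zero h2
  choose e he using hcoord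
  refine ⟨w, hw, fun g => hw2 _ (hzc g).symm, ?_, e, fun i j hij => ?_, fun i => ?_⟩
  · rw [eq_top_iff, ← Module.End.iSup_maxGenEigenspace_eq_top (tl z)]
    refine iSup_le fun a => ?_
    by_cases ha : (tl z).maxGenEigenspace a = ⊥
    · rw [ha]
      exact bot_le
    · obtain ⟨c, hc⟩ := hint a ha
      refine le_trans (fun v hv => ?_) (le_iSup (fun c : ℤ => (tl w).eigenspace (c : k)) c)
      rw [Module.End.mem_eigenspace_iff, tl_apply, hw1 a v hv, hφ, ← hc, map_intCast]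
  · by_contra hne
    refine hf ⟨(i, j), hne⟩ ?_
    show f (z (p i) (p i) - z (p j) (p j)) = 0
    have h1 := he i
    rw [hij, he j] at h1
    rw [map_sub, mul_left_cancel₀ hD0 h1, sub_self]
  · rw [repl_coord hw1 fun a ha => (lie_char (hp i) hz a ha).2, hφ, ← he, map_intCast]

theorem exists_scale {w : Matrix ι ι k} (s : kˣ) :
    ∃ Y : Matrix ι ι k, (∀ c : ℤ, (tl w).eigenspace (c : k) ≤ (tl Y).eigenspace ((s ^ c : kˣ) : k)) ∧
      ∀ W : Matrix ι ι k, W * w = w * W → W * Y = Y * W := by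
  classical
  obtain ⟨Y, h1, h2⟩ := exists_mat w fun a => if h : ∃ c : ℤ, (c : k) = a then ((s ^ h.choose : kˣ) : k) else 0
  refine ⟨Y, fun c v hv => ?_, h2⟩
  have h3 := h1 _ v (Module.End.eigenspace_le_maxGenEigenspace hv)
  have h4 : ∃ c' : ℤ, (c' : k) = (c : k) := ⟨c, rfl⟩
  rw [dif_pos h4] at h3
  have h5 : h4.choose = c := Int.cast_injective h4.choose_spec
  rw [h5] at h3
  rw [Module.End.mem_eigenspace_iff, tl_apply, h3]

theorem scale_point {V : G →* Matrix ι ι k} {w : Matrix ι ι k} (hw : w ∈ lie V)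
    (hw2 : (⨆ c : ℤ, (tl w).eigenspace (c : k)) = ⊤) (s : kˣ) {Y : Matrix ι ι k}
    (hY : ∀ c : ℤ, (tl w).eigenspace (c : k) ≤ (tl Y).eigenspace ((s ^ c : kˣ) : k)) (g : G)
    {F : MvPolynomial (ι × ι) k} (hF : F ∈ van V) : ev (Y * V g) F = 0 := by
  have h1 := scale_van V hw s Y (by
    rw [← hw2]
    exact iSup_congr fun c => inf_eq_left.2 (hY c)) F hF
  have h2 := mem_van.1 h1 g
  rwa [ev_tra] at h2

end grd

end Pool.Agent.H499.ES
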