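import Pool.Agent.H499.ES.Gen

/-! Polynomial relations between the entries of the matrices of a group, and the Lie algebra. -/

set_option autoImplicit false
set_option linter.all false

namespace Pool.Agent.H499.ES

open Module Matrix MvPolynomial

section poly

variable {k : Type*} {ι : Type*} [Field k] [Fintype ι] [DecidableEq ι]

/-- the linear form `∑ w_a x_{a,b}` -/
noncomputable def form (b : ι) : (ι → k) →ₗ[k] MvPolynomial (ι × ι) k :=
  ∑ a, (LinearMap.proj a).smulRight (X (a, b))

theorem form_apply (b : ι) (w : ι → k) : form b w = ∑ a, w a • (X (a, b) : MvPolynomial (ι × ι) k) := by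
  rw [form, LinearMap.sum_apply]
  rfl

theorem form_single (a b : ι) : form b (Pi.single a (1 : k)) = X (a, b) := by
  rw [form_apply, Finset.sum_eq_single a]
  · rw [Pi.single_eq_same, one_smul]
  · intro c _ hc
    rw [Pi.single_eq_of_ne hc, zero_smul]
  · intro h
    exact absurd (Finset.mem_univ a) h

/-- the derivation `x ↦ Y x` -/
noncomputable def der (Y : Matrix ι ι k) : Derivation k (MvPolynomial (ι × ι) k) (MvPolynomial (ι × ι) k) :=
  mkDerivation k fun p => form p.2 fun c => Y p.1 c

/-- the substitution `x ↦ Y x` -/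
noncomputable def tra (Y : Matrix ι ι k) : MvPolynomial (ι × ι) k →ₐ[k] MvPolynomial (ι × ι) k :=
  aeval fun p => form p.2 fun c => Y p.1 c

/-- evaluation -/
noncomputable def ev (Y : Matrix ι ι k) : MvPolynomial (ι × ι) k →ₐ[k] k := aeval fun p => Y p.1 p.2

theorem row_sum (Y : Matrix ι ι k) (w : ι → k) : ∑ a, w a • (fun c => Y a c) = Yᵀ *ᵥ w := by
  funext c
  rw [Finset.sum_apply, Matrix.mulVec, dotProduct]
  refine Finset.sum_congr rfl fun a _ => ?_
  rw [Pi.smul_apply, smul_eq_mul, mul_comm]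
  rfl

theorem der_form (Y : Matrix ι ι k) (b : ι) (w : ι → k) : der Y (form b w) = form b (Yᵀ *ᵥ w) := by
  rw [form_apply, map_sum, ← row_sum, map_sum]
  refine Finset.sum_congr rfl fun a _ => ?_
  rw [Derivation.map_smul, map_smul, der, mkDerivation_X]

theorem tra_form (Y : Matrix ι ι k) (b : ι) (w : ι → k) : tra Y (form b w) = form b (Yᵀ *ᵥ w) := by
  rw [form_apply, map_sum, ← row_sum, map_sum]
  refine Finset.sum_congr rfl fun a _ => ?_
  rw [map_smul, map_smul, tra, aeval_X]

theorem ev_form (Y : Matrix ι ι k) (b : ι) (w : ι → k) : ev Y (form b w) = (Yᵀ *ᵥ w) b := by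
  rw [form_apply, map_sum, Matrix.mulVec, dotProduct]
  refine Finset.sum_congr rfl fun a _ => ?_
  rw [map_smul, ev, aeval_X, smul_eq_mul, mul_comm]
  rfl

theorem ev_tra (Y Z : Matrix ι ι k) (F : MvPolynomial (ι × ι) k) : ev Z (tra Y F) = ev (Y * Z) F := by
  have : (ev Z).comp (tra Y) = ev (Y * Z) := by
    refine MvPolynomial.algHom_ext fun p => ?_
    rw [AlgHom.comp_apply, tra, aeval_X, ev_form, ev, aeval_X]
    rw [Matrix.mulVec, dotProduct, Matrix.mul_apply]
    refine Finset.sum_congr rfl fun c _ => ?_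
    rw [Matrix.transpose_apply, mul_comm]
  exact DFunLike.congr_fun this F

theorem tra_one (F : MvPolynomial (ι × ι) k) : tra (1 : Matrix ι ι k) F = F := by
  have : tra (1 : Matrix ι ι k) = AlgHom.id k _ := by
    refine MvPolynomial.algHom_ext fun p => ?_
    have h : X p = form p.2 (Pi.single p.1 (1 : k)) := by rw [form_single]
    rw [h, tra_form, Matrix.transpose_one, Matrix.one_mulVec]
    rfl
  rw [this]
  rfl

theorem tra_tra (Y Z : Matrix ι ι k) (F : MvPolynomial (ι × ι) k) : tra Y (tra Z F) = tra (Z * Y) F := by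
  have : (tra Y).comp (tra Z) = tra (Z * Y) := by
    refine MvPolynomial.algHom_ext fun p => ?_
    have h : X p = form p.2 (Pi.single p.1 (1 : k)) := by rw [form_single]
    rw [h, AlgHom.comp_apply, tra_form, tra_form, tra_form, Matrix.transpose_mul, Matrix.mulVec_mulVec]
  exact DFunLike.congr_fun this F

theorem der_add (Y Z : Matrix ι ι k) (F : MvPolynomial (ι × ι) k) : der (Y + Z) F = der Y F + der Z F := by
  have : der (Y + Z) = der Y + der Z := by
    refine MvPolynomial.derivation_ext fun p => ?_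
    have h : X p = form p.2 (Pi.single p.1 (1 : k)) := by rw [form_single]
    rw [h, Derivation.add_apply, der_form, der_form, der_form, Matrix.transpose_add, Matrix.add_mulVec, map_add]
  rw [this]
  rfl

theorem der_smul (c : k) (Y : Matrix ι ι k) (F : MvPolynomial (ι × ι) k) : der (c • Y) F = c • der Y F := by
  have : der (c • Y) = c • der Y := by
    refine MvPolynomial.derivation_ext fun p => ?_
    have h : X p = form p.2 (Pi.single p.1 (1 : k)) := by rw [form_single]
    rw [h, Derivation.smul_apply, der_form, der_form, Matrix.transpose_smul, Matrix.smul_mulVec, map_smul]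
  rw [this]
  rfl

theorem der_zero (F : MvPolynomial (ι × ι) k) : der (0 : Matrix ι ι k) F = 0 := by
  have := der_smul (0 : k) (0 : Matrix ι ι k) F
  rwa [zero_smul, zero_smul] at this

theorem der_lie (Y Z : Matrix ι ι k) (F : MvPolynomial (ι × ι) k) :
    der (Y * Z - Z * Y) F = der Z (der Y F) - der Y (der Z F) := by
  have : der (Y * Z - Z * Y) = ⁅der Z, der Y⁆ := by
    refine MvPolynomial.derivation_ext fun p => ?_
    have h : X p = form p.2 (Pi.single p.1 (1 : k)) := by rw [form_single]
    rw [h, Derivation.commutator_apply, der_form, der_form, der_form, der_form, der_form, ← map_sub,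
      Matrix.mulVec_mulVec, Matrix.mulVec_mulVec, Matrix.transpose_sub, Matrix.sub_mulVec, Matrix.transpose_mul,
      Matrix.transpose_mul]
  rw [this, Derivation.commutator_apply]

theorem der_conj {Y P Q : Matrix ι ι k} (h1 : P * Q = 1) (h2 : Q * P = 1) (F : MvPolynomial (ι × ι) k) :
    der (Q * Y * P) F = tra P (der Y (tra Q F)) := by
  induction F using MvPolynomial.induction_on with
  | C a =>
    have e1 : (C a : MvPolynomial (ι × ι) k) = algebraMap k _ a := rfl
    rw [e1, AlgHom.commutes, Derivation.map_algebraMap, Derivation.map_algebraMap, map_zero]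
  | add p q hp hq => rw [map_add, map_add, map_add, map_add, hp, hq]
  | mul_X p i hp =>
    have h : X i = form i.2 (Pi.single i.1 (1 : k)) := by rw [form_single]
    rw [Derivation.leibniz, hp, map_mul, Derivation.leibniz, map_add, smul_eq_mul, smul_eq_mul, smul_eq_mul,
      smul_eq_mul, map_mul, map_mul, tra_tra, tra_tra, h2, tra_one, tra_one, h, tra_form, der_form, der_form, tra_form,
      Matrix.mulVec_mulVec, Matrix.mulVec_mulVec, Matrix.transpose_mul, Matrix.transpose_mul]
    simp only [mul_assoc]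

end poly

section group

variable {k : Type*} {ι : Type*} [Field k] [Fintype ι] [DecidableEq ι] {G : Type*} [Group G]

/-- the polynomials which vanish on the group -/
noncomputable def van (V : G →* Matrix ι ι k) : Submodule k (MvPolynomial (ι × ι) k) where
  carrier := {F | ∀ g, ev (V g) F = 0}
  add_mem' := fun {a b} ha hb g => by rw [map_add, ha g, hb g, add_zero]
  zero_mem' := fun g => map_zero _
  smul_mem' := fun c a ha g => by rw [map_smul, ha g, smul_zero]

theorem mem_van {V : G →* Matrix ι ι k} {F : MvPolynomial (ι × ι) k} : F ∈ van V ↔ ∀ g, ev (V g) F = 0 := Iff.rfl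

theorem tra_van (V : G →* Matrix ι ι k) (h : G) {F : MvPolynomial (ι × ι) k} (hF : F ∈ van V) :
    tra (V h) F ∈ van V := by
  intro g
  rw [ev_tra, ← map_mul]
  exact hF _

/-- the Lie algebra -/
noncomputable def lie (V : G →* Matrix ι ι k) : Submodule k (Matrix ι ι k) where
  carrier := {Y | ∀ F ∈ van V, der Y F ∈ van V}
  add_mem' := fun {a b} ha hb F hF => by rw [der_add]; exact (van V).add_mem (ha F hF) (hb F hF)
  zero_mem' := fun F _ => by rw [der_zero]; exact (van V).zero_mem
  smul_mem' := fun c a ha F hF => by rw [der_smul]; exact (van V).smul_mem _ (ha F hF)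

theorem lie_lie (V : G →* Matrix ι ι k) {Y Z : Matrix ι ι k} (hY : Y ∈ lie V) (hZ : Z ∈ lie V) :
    Y * Z - Z * Y ∈ lie V := fun F hF => by
  rw [der_lie]
  exact (van V).sub_mem (hZ _ (hY F hF)) (hY _ (hZ F hF))

theorem lie_conj (V : G →* Matrix ι ι k) {Y : Matrix ι ι k} (hY : Y ∈ lie V) (g : G) :
    V g⁻¹ * Y * V g ∈ lie V := fun F hF => by
  rw [der_conj (P := V g) (Q := V g⁻¹) (by rw [← map_mul, mul_inv_cancel, map_one])
    (by rw [← map_mul, inv_mul_cancel, map_one])]
  exact tra_van V g (hY _ (tra_van V g⁻¹ hF))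

/-- linear relations -/
theorem lin_rel (V : G →* Matrix ι ι k) (f : Matrix ι ι k →ₗ[k] k) (hf : ∀ g, f (V g) = 0) {Y : Matrix ι ι k}
    (hY : Y ∈ lie V) : f Y = 0 := by
  have hsum : ∀ Z : Matrix ι ι k, f Z = ∑ b, ∑ a, f (Matrix.single a b 1) * Z a b := by
    intro Z
    conv_lhs => rw [Matrix.matrix_eq_sum_single Z]
    rw [map_sum]
    simp only [map_sum]
    rw [Finset.sum_comm]
    refine Finset.sum_congr rfl fun b _ => Finset.sum_congr rfl fun a _ => ?_
    have : Matrix.single a b (Z a b) = Z a b • Matrix.single a b (1 : k) := by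
      rw [Matrix.smul_single, smul_eq_mul, mul_one]
    rw [this, map_smul, smul_eq_mul, mul_comm]
  let F : MvPolynomial (ι × ι) k := ∑ b, form b fun a => f (Matrix.single a b 1)
  have hev : ∀ Z, ev Z F = f Z := by
    intro Z
    rw [map_sum, hsum]
    refine Finset.sum_congr rfl fun b _ => ?_
    rw [ev_form, Matrix.mulVec, dotProduct]
    refine Finset.sum_congr rfl fun a _ => ?_
    rw [Matrix.transpose_apply, mul_comm]
  have hF : F ∈ van V := fun g => by rw [hev, hf]
  have h1 := hY F hF 1
  have h2 : der Y F = ∑ b, form b (Yᵀ *ᵥ fun a => f (Matrix.single a b 1)) := by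
    rw [map_sum]
    exact Finset.sum_congr rfl fun b _ => der_form _ _ _
  rw [h2, map_sum, map_one] at h1
  rw [hsum, ← h1]
  refine Finset.sum_congr rfl fun b _ => ?_
  rw [ev_form, Matrix.transpose_one, Matrix.one_mulVec, Matrix.mulVec, dotProduct]
  refine Finset.sum_congr rfl fun a _ => ?_
  rw [Matrix.transpose_apply, mul_comm]

theorem adjoin_X : Algebra.adjoin k (Set.range (X : ι × ι → MvPolynomial (ι × ι) k)) = ⊤ :=
  MvPolynomial.adjoin_range_X

theorem pow_form (T : End k (ι → k)) (τ : End k (MvPolynomial (ι × ι) k)) (h : ∀ b w, τ (form b w) = form b (T w))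
    (a : k) (b : ι) (N : ℕ) (w : ι → k) :
    ((τ - algebraMap k (End k (MvPolynomial (ι × ι) k)) a) ^ N : End k (MvPolynomial (ι × ι) k)) (form b w) =
      form b (((T - algebraMap k (End k (ι → k)) a) ^ N : End k (ι → k)) w) := by
  induction N generalizing w with
  | zero => rfl
  | succ N ih =>
    rw [pow_succ, pow_succ, Module.End.mul_apply, Module.End.mul_apply, ← ih]
    congr 1
    rw [LinearMap.sub_apply, LinearMap.sub_apply, h, Module.algebraMap_end_apply, Module.algebraMap_end_apply,
      map_sub, map_smul]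

theorem gens_mem (T : End k (ι → k)) (τ θ : End k (MvPolynomial (ι × ι) k)) {κ : Type*} (lam mu : κ → k)
    (E : κ → Submodule k (ι → k)) (hE : ∀ i, E i ≤ T.maxGenEigenspace (lam i))
    (hcov : ⨆ i, E i = ⊤) (h1 : ∀ b w, τ (form b w) = form b (T w))
    (h2 : ∀ i, ∀ w ∈ E i, ∀ b, θ (form b w) = mu i • form b w) :
    ∀ x ∈ Set.range (X : ι × ι → MvPolynomial (ι × ι) k),
      x ∈ ⨆ i, τ.maxGenEigenspace (lam i) ⊓ θ.eigenspace (mu i) := by
  rintro _ ⟨p, rfl⟩
  have h : X p = form p.2 (Pi.single p.1 (1 : k)) := by rw [form_single]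
  have hw : (Pi.single p.1 (1 : k) : ι → k) ∈ ⨆ i, E i := by rw [hcov]; trivial
  rw [h]
  refine Submodule.iSup_induction (motive := fun w => form p.2 w ∈ _) _ hw (fun i w hw => ?_)
    (by rw [map_zero]; exact zero_mem _) fun x y hx hy => by rw [map_add]; exact add_mem hx hy
  refine Submodule.mem_iSup_of_mem i ⟨?_, Module.End.mem_eigenspace_iff.2 (h2 i w hw p.2)⟩
  obtain ⟨N, hN⟩ := mem_gen.1 (hE i hw)
  exact mem_gen.2 ⟨N, by rw [pow_form T τ h1, hN, map_zero]⟩

/-- the transposed action -/
noncomputable def tl (Y : Matrix ι ι k) : End k (ι → k) := Matrix.toLin' Yᵀ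

theorem tl_apply (Y : Matrix ι ι k) (w : ι → k) : tl Y w = Yᵀ *ᵥ w := Matrix.toLin'_apply _ _

theorem tl_mul (Y Z : Matrix ι ι k) : tl (Y * Z) = tl Z * tl Y := by
  apply LinearMap.ext
  intro w
  rw [Module.End.mul_apply, tl_apply, tl_apply, tl_apply, Matrix.mulVec_mulVec, Matrix.transpose_mul]

theorem tl_one : tl (1 : Matrix ι ι k) = 1 := by
  apply LinearMap.ext
  intro w
  rw [tl_apply, Matrix.transpose_one, Matrix.one_mulVec]
  rfl

/-- replicas of group elements -/
theorem repl_group [IsAlgClosed k] (V : G →* Matrix ι ι k) (g : G) (θ : Additive kˣ →+ k) (Y : Matrix ι ι k)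
    (hY : ∀ β : kˣ, ∀ w ∈ (tl (V g)).maxGenEigenspace (β : k), Yᵀ *ᵥ w = θ (Additive.ofMul β) • w) :
    Y ∈ lie V := by
  have hcov : ⨆ β : kˣ, (tl (V g)).maxGenEigenspace (β : k) = ⊤ := by
    rw [eq_top_iff, ← Module.End.iSup_maxGenEigenspace_eq_top (tl (V g))]
    refine iSup_le fun β => ?_
    by_cases hβ : β = 0
    · subst hβ
      intro w hw
      obtain ⟨N, hN⟩ := mem_gen.1 hw
      rw [map_zero, sub_zero] at hN
      have h1 : (tl (V g⁻¹) ^ N) ((tl (V g) ^ N) w) = w := by
        have hc : tl (V g⁻¹) * tl (V g) = 1 := by rw [← tl_mul, ← map_mul, mul_inv_cancel, map_one, tl_one]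
        have hc2 : tl (V g) * tl (V g⁻¹) = 1 := by rw [← tl_mul, ← map_mul, inv_mul_cancel, map_one, tl_one]
        have hcomm : Commute (tl (V g⁻¹)) (tl (V g)) := by rw [Commute, SemiconjBy, hc, hc2]
        rw [← Module.End.mul_apply, ← hcomm.mul_pow, hc, one_pow, Module.End.one_apply]
      rw [hN, map_zero] at h1
      rw [← h1]
      exact zero_mem _
    · exact le_iSup (fun β : kˣ => (tl (V g)).maxGenEigenspace (β : k)) (Units.mk0 β hβ)
  refine fun F hF => comp_mem (tra (V g)).toLinearMap (der Y : MvPolynomial (ι × ι) k →ₗ[k] MvPolynomial (ι × ι) k)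
    (fun β : kˣ => (β : k)) (fun β => θ (Additive.ofMul β)) (fun a b h => Units.ext h) (fun a b => a * b) 1 (Submodule.mem_inf.2 ⟨?_, ?_⟩)
    (fun i j f g hf hg => Submodule.mem_inf.2 ⟨?_, ?_⟩) _ adjoin_X
    (gens_mem (tl (V g)) _ _ _ _ _ (fun _ => le_rfl) hcov (fun b w => (tra_form _ _ _).trans (by rw [tl_apply])) fun i w hw b => ?_)
    (I := van V) (fun x hx => tra_van V g hx) F hF
  · exact mem_gen.2 ⟨1, by
      rw [pow_one, sub_ap]
      show tra (V g) 1 - _ = 0
      rw [map_one, Units.val_one, map_one, one_mul, sub_self]⟩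
  · rw [Module.End.mem_eigenspace_iff]
    show der Y 1 = _
    rw [Derivation.map_one_eq_zero, ofMul_one, map_zero, zero_smul]
  · exact mul_gen_aut (fun f g => map_mul (tra (V _)) f g) hf.1 hg.1
  · have h1 := Module.End.mem_eigenspace_iff.1 hf.2
    have h2 := Module.End.mem_eigenspace_iff.1 hg.2
    rw [Module.End.mem_eigenspace_iff]
    show der Y (f * g) = _
    rw [Derivation.leibniz]
    have h1' : der Y f = _ := h1
    have h2' : der Y g = _ := h2
    rw [h1', h2', ofMul_mul, map_add, add_smul, smul_eq_mul, smul_eq_mul, mul_smul_comm, mul_smul_comm, mul_comm g f,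
      add_comm]
  · show der Y (form b w) = _
    rw [der_form, hY i w hw, map_smul]

/-- replicas of elements of the Lie algebra -/
theorem repl_lie [IsAlgClosed k] (V : G →* Matrix ι ι k) {Z : Matrix ι ι k} (hZ : Z ∈ lie V) (φ : k →+ k)
    (Y : Matrix ι ι k) (hY : ∀ β : k, ∀ w ∈ (tl Z).maxGenEigenspace β, Yᵀ *ᵥ w = φ β • w) :
    Y ∈ lie V := by
  refine fun F hF => comp_mem (der Z : MvPolynomial (ι × ι) k →ₗ[k] MvPolynomial (ι × ι) k)
    (der Y : MvPolynomial (ι × ι) k →ₗ[k] MvPolynomial (ι × ι) k)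
    (fun β : k => β) (fun β => φ β) Function.injective_id (fun a b => a + b) 0 (Submodule.mem_inf.2 ⟨?_, ?_⟩)
    (fun i j f g hf hg => Submodule.mem_inf.2 ⟨?_, ?_⟩) _ adjoin_X
    (gens_mem (tl Z) _ _ _ _ _ (fun _ => le_rfl) (Module.End.iSup_maxGenEigenspace_eq_top _) (fun b w => (der_form _ _ _).trans (by rw [tl_apply]))
      fun i w hw b => ?_)
    (I := van V) (fun x hx => hZ x hx) F hF
  · exact mem_gen.2 ⟨1, by
      rw [pow_one, sub_ap]
      show der Z 1 - _ = 0
      rw [Derivation.map_one_eq_zero, map_zero, zero_mul, sub_zero]⟩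
  · rw [Module.End.mem_eigenspace_iff]
    show der Y 1 = _
    rw [Derivation.map_one_eq_zero, map_zero, zero_smul]
  · refine mul_gen_der (fun f g => ?_) hf.1 hg.1
    show der Z (f * g) = der Z f * g + f * der Z g
    rw [Derivation.leibniz, smul_eq_mul, smul_eq_mul]
    ring
  · have h1 := Module.End.mem_eigenspace_iff.1 hf.2
    have h2 := Module.End.mem_eigenspace_iff.1 hg.2
    rw [Module.End.mem_eigenspace_iff]
    show der Y (f * g) = _
    rw [Derivation.leibniz]
    have h1' : der Y f = _ := h1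
    have h2' : der Y g = _ := h2
    rw [h1', h2', map_add, add_smul, smul_eq_mul, smul_eq_mul, mul_smul_comm, mul_smul_comm, mul_comm g f,
      add_comm]
  · show der Y (form b w) = _
    rw [der_form, hY i w hw, map_smul]

/-- one-parameter groups -/
theorem scale_van [CharZero k] (V : G →* Matrix ι ι k) {Z : Matrix ι ι k} (hZ : Z ∈ lie V) (s : kˣ)
    (Y : Matrix ι ι k)
    (hcov : ⨆ c : ℤ, (tl Z).eigenspace (c : k) ⊓ (tl Y).eigenspace ((s ^ c : kˣ) : k) = ⊤) :
    ∀ F ∈ van V, tra Y F ∈ van V := by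
  refine fun F hF => comp_mem (der Z : MvPolynomial (ι × ι) k →ₗ[k] MvPolynomial (ι × ι) k)
    (tra Y).toLinearMap (fun c : ℤ => (c : k)) (fun c => ((s ^ c : kˣ) : k)) Int.cast_injective (fun a b => a + b) 0
    (Submodule.mem_inf.2 ⟨?_, ?_⟩) (fun i j f g hf hg => Submodule.mem_inf.2 ⟨?_, ?_⟩) _ adjoin_X
    (gens_mem (tl Z) _ _ _ _ _ (fun i => inf_le_left.trans Module.End.eigenspace_le_maxGenEigenspace) hcov
      (fun b w => (der_form _ _ _).trans (by rw [tl_apply])) fun i w hw b => ?_)
    (I := van V) (fun x hx => hZ x hx) F hF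
  · exact mem_gen.2 ⟨1, by
      rw [pow_one, sub_ap]
      show der Z 1 - _ = 0
      rw [Derivation.map_one_eq_zero, Int.cast_zero, map_zero, zero_mul, sub_zero]⟩
  · rw [Module.End.mem_eigenspace_iff]
    show tra Y 1 = _
    rw [map_one, zpow_zero, Units.val_one, one_smul]
  · rw [Int.cast_add]
    refine mul_gen_der (fun f g => ?_) hf.1 hg.1
    show der Z (f * g) = der Z f * g + f * der Z g
    rw [Derivation.leibniz, smul_eq_mul, smul_eq_mul]
    ring
  · have h1 := Module.End.mem_eigenspace_iff.1 hf.2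
    have h2 := Module.End.mem_eigenspace_iff.1 hg.2
    rw [Module.End.mem_eigenspace_iff]
    show tra Y (f * g) = _
    have h1' : tra Y f = _ := h1
    have h2' : tra Y g = _ := h2
    rw [map_mul, h1', h2', smul_mul_smul_comm, _root_.zpow_add, Units.val_mul]
  · show tra Y (form b w) = _
    have h1 := Module.End.mem_eigenspace_iff.1 hw.2
    rw [tl_apply] at h1
    rw [tra_form, h1, map_smul]

end group

end Pool.Agent.H499.ES
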